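import Mathlib

/-! Dyadic piecewise linear permutations of the real line. -/

namespace Pool.Agent.MP_317377_al

open Set Filter

/-- dyadic rational numbers -/
def Dy (r : ℝ) : Prop := ∃ (n : ℤ) (k : ℕ), r * 2 ^ k = n

theorem ai {α : Type*} (f : Equiv.Perm α) (x : α) : f (f⁻¹ x) = x := Equiv.apply_symm_apply f x
theorem ia {α : Type*} (f : Equiv.Perm α) (x : α) : f⁻¹ (f x) = x := Equiv.symm_apply_apply f x

theorem Dy.intCast (n : ℤ) : Dy (n : ℝ) := ⟨n, 0, by simp⟩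

theorem Dy.zero : Dy 0 := by simpa using Dy.intCast 0
theorem Dy.one : Dy 1 := by simpa using Dy.intCast 1

theorem Dy.neg {a : ℝ} (ha : Dy a) : Dy (-a) := by
  obtain ⟨n, k, h⟩ := ha
  exact ⟨-n, k, by push_cast; rw [← h]; ring⟩

theorem Dy.add {a b : ℝ} (ha : Dy a) (hb : Dy b) : Dy (a + b) := by
  obtain ⟨n, k, h⟩ := ha
  obtain ⟨m, l, h'⟩ := hb
  refine ⟨n * 2 ^ l + m * 2 ^ k, k + l, ?_⟩
  push_cast
  rw [← h, ← h', pow_add]
  ring

theorem Dy.sub {a b : ℝ} (ha : Dy a) (hb : Dy b) : Dy (a - b) := by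
  rw [sub_eq_add_neg]; exact ha.add hb.neg

theorem Dy.mul {a b : ℝ} (ha : Dy a) (hb : Dy b) : Dy (a * b) := by
  obtain ⟨n, k, h⟩ := ha
  obtain ⟨m, l, h'⟩ := hb
  refine ⟨n * m, k + l, ?_⟩
  push_cast
  rw [← h, ← h', pow_add]
  ring

theorem Dy.two_zpow (k : ℤ) : Dy ((2 : ℝ) ^ k) := by
  obtain ⟨n, rfl | rfl⟩ := k.eq_nat_or_neg
  · exact ⟨2 ^ n, 0, by push_cast; simp⟩
  · refine ⟨1, n, ?_⟩
    simp

theorem Dy.zpow_mul_iff {a : ℝ} (k : ℤ) : Dy ((2 : ℝ) ^ k * a) ↔ Dy a := by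
  constructor
  · intro h
    have := (Dy.two_zpow (-k)).mul h
    rwa [← mul_assoc, ← zpow_add₀ (by norm_num), neg_add_cancel, zpow_zero, one_mul] at this
  · exact fun h => (Dy.two_zpow k).mul h

theorem Dy.half {a : ℝ} (ha : Dy a) : Dy (a / 2) := by
  have := (Dy.zpow_mul_iff (a := a) (-1)).2 ha
  have e : (2 : ℝ) ^ (-1 : ℤ) * a = a / 2 := by
    rw [zpow_neg_one]; ring
  rwa [e] at this

theorem Dy.exists_between {a b : ℝ} (h : a < b) : ∃ c, Dy c ∧ a < c ∧ c < b := by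
  obtain ⟨k, hk⟩ := pow_unbounded_of_one_lt (1 / (b - a)) (by norm_num : (1 : ℝ) < 2)
  have hpos : (0 : ℝ) < 2 ^ k := by positivity
  have hba : 0 < b - a := by linarith
  rw [div_lt_iff₀ hba] at hk
  refine ⟨(⌊a * 2 ^ k⌋ + 1 : ℤ) / 2 ^ k, ⟨⌊a * 2 ^ k⌋ + 1, k, by field_simp⟩, ?_, ?_⟩
  · rw [lt_div_iff₀ hpos]
    push_cast
    exact Int.lt_floor_add_one _
  · rw [div_lt_iff₀ hpos]
    push_cast
    have := Int.floor_le (a * 2 ^ k)
    nlinarith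

/-- right slope `2 ^ k` at `t` -/
def RS (f : ℝ → ℝ) (t : ℝ) (k : ℤ) : Prop :=
  ∃ δ > 0, ∀ s, t ≤ s → s ≤ t + δ → f s = f t + 2 ^ k * (s - t)

/-- left slope `2 ^ k` at `t` -/
def LS (f : ℝ → ℝ) (t : ℝ) (k : ℤ) : Prop :=
  ∃ δ > 0, ∀ s, t - δ ≤ s → s ≤ t → f s = f t + 2 ^ k * (s - t)

/-- dyadic piecewise linear maps -/
structure PL2 (f : ℝ → ℝ) : Prop where
  dy : ∀ s, Dy (f s) ↔ Dy s
  slope : ∀ t, ∃ k l : ℤ, RS f t k ∧ LS f t l ∧ (¬ Dy t → k = l)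

theorem zpow2_pos (k : ℤ) : (0 : ℝ) < 2 ^ k := zpow_pos (by norm_num) k

theorem RS.comp {f g : ℝ → ℝ} {t : ℝ} {k l : ℤ} (hf : RS f (g t) k) (hg : RS g t l) :
    RS (fun s => f (g s)) t (k + l) := by
  obtain ⟨δ, hδ, h⟩ := hf
  obtain ⟨δ', hδ', h'⟩ := hg
  have hp := zpow2_pos l
  refine ⟨min δ' (δ / 2 ^ l), lt_min hδ' (by positivity), fun s hs hs' => ?_⟩
  have h1 : s ≤ t + δ' := hs'.trans (by gcongr; exact min_le_left _ _)
  have h2 : s - t ≤ δ / 2 ^ l := by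
    have := min_le_right δ' (δ / 2 ^ l); linarith
  rw [le_div_iff₀ hp] at h2
  have e := h' s hs h1
  have h3 := h (g s) (by rw [e]; nlinarith) (by rw [e]; nlinarith)
  change f (g s) = f (g t) + 2 ^ (k + l) * (s - t)
  rw [h3, e, zpow_add₀ (by norm_num)]
  ring

theorem LS.comp {f g : ℝ → ℝ} {t : ℝ} {k l : ℤ} (hf : LS f (g t) k) (hg : LS g t l) :
    LS (fun s => f (g s)) t (k + l) := by
  obtain ⟨δ, hδ, h⟩ := hf
  obtain ⟨δ', hδ', h'⟩ := hg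
  have hp := zpow2_pos l
  refine ⟨min δ' (δ / 2 ^ l), lt_min hδ' (by positivity), fun s hs hs' => ?_⟩
  have h1 : t - δ' ≤ s := by
    have := min_le_left δ' (δ / 2 ^ l); linarith
  have h2 : t - s ≤ δ / 2 ^ l := by
    have := min_le_right δ' (δ / 2 ^ l); linarith
  rw [le_div_iff₀ hp] at h2
  have e := h' s h1 hs'
  have h3 := h (g s) (by rw [e]; nlinarith) (by rw [e]; nlinarith)
  change f (g s) = f (g t) + 2 ^ (k + l) * (s - t)
  rw [h3, e, zpow_add₀ (by norm_num)]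
  ring

theorem PL2.comp {f g : ℝ → ℝ} (hf : PL2 f) (hg : PL2 g) : PL2 (fun s => f (g s)) := by
  refine ⟨fun s => (hf.dy _).trans (hg.dy _), fun t => ?_⟩
  obtain ⟨k, l, h1, h2, h3⟩ := hf.slope (g t)
  obtain ⟨k', l', h1', h2', h3'⟩ := hg.slope t
  refine ⟨k + k', l + l', h1.comp h1', h2.comp h2', fun ht => ?_⟩
  rw [h3 (fun h => ht ((hg.dy t).1 h)), h3' ht]

theorem PL2.id : PL2 (fun s => s) :=
  ⟨fun _ => Iff.rfl, fun _ => ⟨0, 0, ⟨1, one_pos, fun s _ _ => by simp⟩,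
    ⟨1, one_pos, fun s _ _ => by simp⟩, fun _ => rfl⟩⟩

theorem PL2.symm {f : Equiv.Perm ℝ} (hf : PL2 f) : PL2 (f⁻¹ : Equiv.Perm ℝ) := by
  refine ⟨fun s => ?_, fun t => ?_⟩
  · have := hf.dy (f⁻¹ s)
    simp only [ai] at this
    exact this.symm
  · obtain ⟨k, l, ⟨δ, hδ, h1⟩, ⟨δ', hδ', h2⟩, h3⟩ := hf.slope (f⁻¹ t)
    have hk := zpow2_pos k
    have hl := zpow2_pos l
    have hk' := zpow2_pos (-k)
    have hl' := zpow2_pos (-l)
    have ek : (2 : ℝ) ^ k * 2 ^ (-k) = 1 := by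
      rw [← zpow_add₀ (by norm_num)]; simp
    have el : (2 : ℝ) ^ l * 2 ^ (-l) = 1 := by
      rw [← zpow_add₀ (by norm_num)]; simp
    simp only [ai] at h1 h2
    refine ⟨-k, -l, ⟨δ * 2 ^ k, by positivity, fun s hs hs' => ?_⟩,
      ⟨δ' * 2 ^ l, by positivity, fun s hs hs' => ?_⟩, fun ht => ?_⟩
    · rw [Equiv.Perm.inv_eq_iff_eq]
      have hb : 2 ^ (-k) * (s - t) ≤ δ := by
        have : 2 ^ (-k) * (s - t) ≤ 2 ^ (-k) * (δ * 2 ^ k) := by
          apply mul_le_mul_of_nonneg_left _ hk'.le; linarith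
        calc _ ≤ _ := this
          _ = δ * ((2 : ℝ) ^ k * 2 ^ (-k)) := by ring
          _ = δ := by rw [ek, mul_one]
      have hb0 : 0 ≤ 2 ^ (-k) * (s - t) := mul_nonneg hk'.le (by linarith)
      rw [h1 _ (by linarith) (by linarith)]
      have : (2 : ℝ) ^ k * (f⁻¹ t + 2 ^ (-k) * (s - t) - f⁻¹ t) = (2 ^ k * 2 ^ (-k)) * (s - t) := by
        ring
      rw [this, ek]; ring
    · rw [Equiv.Perm.inv_eq_iff_eq]
      have hb : 2 ^ (-l) * (t - s) ≤ δ' := by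
        have : 2 ^ (-l) * (t - s) ≤ 2 ^ (-l) * (δ' * 2 ^ l) := by
          apply mul_le_mul_of_nonneg_left _ hl'.le; linarith
        calc _ ≤ _ := this
          _ = δ' * ((2 : ℝ) ^ l * 2 ^ (-l)) := by ring
          _ = δ' := by rw [el, mul_one]
      have hb0 : 0 ≤ 2 ^ (-l) * (t - s) := mul_nonneg hl'.le (by linarith)
      rw [h2 _ (by linarith) (by linarith)]
      have : (2 : ℝ) ^ l * (f⁻¹ t + 2 ^ (-l) * (s - t) - f⁻¹ t) = (2 ^ l * 2 ^ (-l)) * (s - t) := by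
        ring
      rw [this, el]; ring
    · rw [h3]
      intro h
      have := (hf.dy _).2 h
      rw [ai] at this
      exact ht this

/-- increasing dyadic PL permutations of the line -/
def PP : Subgroup (Equiv.Perm ℝ) where
  carrier := {f | StrictMono f ∧ PL2 f}
  mul_mem' := fun {f g} hf hg => ⟨hf.1.comp hg.1, hf.2.comp hg.2⟩
  one_mem' := ⟨strictMono_id, PL2.id⟩
  inv_mem' := fun {f} hf => by
    refine ⟨fun a b hab => ?_, hf.2.symm⟩
    by_contra hcon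
    rw [not_lt] at hcon
    have := hf.1.monotone hcon
    simp only [ai] at this
    linarith

/-- translation by one -/
def tau : Equiv.Perm ℝ := Equiv.addRight 1

@[simp] theorem tau_apply (t : ℝ) : tau t = t + 1 := rfl

/-- orientation preserving lifts -/
def TP : Subgroup (Equiv.Perm ℝ) where
  carrier := {f | f ∈ PP ∧ ∀ t, f (t + 1) = f t + 1}
  mul_mem' := fun {f g} hf hg => ⟨PP.mul_mem hf.1 hg.1, fun t => by
    simp [Equiv.Perm.mul_apply, hg.2, hf.2]⟩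
  one_mem' := ⟨PP.one_mem, fun t => rfl⟩
  inv_mem' := fun {f} hf => ⟨PP.inv_mem hf.1, fun t => by
    rw [Equiv.Perm.inv_eq_iff_eq, hf.2, ai]⟩

end Pool.Agent.MP_317377_al
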