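import Pool.Agent.MP_317377_al.Main

/-! Mates for all nontrivial elements. -/

namespace Pool.Agent.MP_317377_al

open Set Filter Topology commutatorElement

theorem rev_mul_rev {f g : Equiv.Perm ℝ} (hf : Ng * f ∈ TP) (hg : Ng * g ∈ TP) : f * g ∈ TP := by
  have : f * g = (Ng * (Ng * f) * Ng) * (Ng * g) := by
    have := Ng_mul_Ng
    calc f * g = 1 * f * 1 * g := by group
      _ = (Ng * Ng) * f * (Ng * Ng) * g := by rw [this]
      _ = _ := by group
  rw [this]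
  exact TP.mul_mem (Ng_conj hf) hg

theorem rev_mul_fwd {f g : Equiv.Perm ℝ} (hf : Ng * f ∈ TP) (hg : g ∈ TP) :
    Ng * (f * g) ∈ TP := by
  rw [← mul_assoc]; exact TP.mul_mem hf hg

theorem fwd_mul_rev {f g : Equiv.Perm ℝ} (hf : f ∈ TP) (hg : Ng * g ∈ TP) :
    Ng * (f * g) ∈ TP := by
  have : Ng * (f * g) = (Ng * f * Ng) * (Ng * g) := by
    have := Ng_mul_Ng
    calc Ng * (f * g) = Ng * f * 1 * g := by group
      _ = Ng * f * (Ng * Ng) * g := by rw [this]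
      _ = _ := by group
  rw [this]
  exact TP.mul_mem (Ng_conj hf) hg

theorem rev_inv {f : Equiv.Perm ℝ} (hf : Ng * f ∈ TP) : Ng * f⁻¹ ∈ TP := by
  have : Ng * f⁻¹ = Ng * (Ng * f)⁻¹ * Ng := by
    rw [mul_inv_rev, Ng_inv]
    have := Ng_mul_Ng
    calc Ng * f⁻¹ = Ng * f⁻¹ * 1 := by group
      _ = Ng * f⁻¹ * (Ng * Ng) := by rw [this]
      _ = _ := by group
  rw [this]
  exact Ng_conj (TP.inv_mem hf)

theorem trans_mem {c : ℝ} (hc : Dy c) : aff 0 c ∈ TP :=
  ⟨aff_mem 0 hc, fun t => by simp [aff_apply]; ring⟩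

theorem tau_comm {f : Equiv.Perm ℝ} (hf : f ∈ TP) (n : ℤ) : tau ^ n * f = f * tau ^ n := by
  ext t
  rw [Equiv.Perm.mul_apply, Equiv.Perm.mul_apply, tau_zpow, tau_zpow, TP.add_int hf]

theorem x0_sym {r : ℝ} (h0 : 0 ≤ r) (h1 : r ≤ 1) : x0 (1 - x0 r) = 1 - r := by
  rcases le_total r (1 / 4) with h2 | h2
  · rw [x0_a h0 h2, x0_c (by linarith) (by linarith)]; ring
  rcases le_total r (1 / 2) with h3 | h3
  · rw [x0_b h2 h3, x0_b (by linarith) (by linarith)]; ring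
  · rw [x0_c h3 h1, x0_a (by linarith) (by linarith)]; ring

/-- the normalised statement -/
theorem exists_mate_norm {x : Equiv.Perm ℝ} (hx : x ∈ GG)
    (hxJ : ∀ t, -1 / 8 ≤ t → t ≤ 5 / 8 → 5 / 8 < x t ∧ x t < 7 / 8) :
    ∃ y ∈ GG, GG ≤ Subgroup.closure {x, y, tau} := by
  have D18 : Dy (-1 / 8) := by have := dyq (-1) 3; norm_num at this ⊢; exact this
  have D58 : Dy (5 / 8) := by have := dyq 5 3; norm_num at this ⊢; exact this
  have D316 : Dy (3 / 16) := by have := dyq 3 4; norm_num at this ⊢; exact this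
  have D916 : Dy (9 / 16) := by have := dyq 9 4; norm_num at this ⊢; exact this
  -- the contraction E
  obtain ⟨κ, hκ, Eκ⟩ := exists_TP_of_local (aff_mem (-1) Dy.zero) D18 D58 (by norm_num)
    (by norm_num) (by simp only [aff_apply]; norm_num)
  obtain ⟨E, hE, hEv⟩ : ∃ E : Equiv.Perm ℝ, Ng * E ∈ TP ∧
      ∀ t, -1 / 8 ≤ t → t ≤ 5 / 8 → E t = 1 / 2 - t / 2 := by
    refine ⟨aff 0 (1 / 2) * Ng * κ, ?_, fun t t0 t1 => ?_⟩
    · have := Ng_conj (trans_mem half_dy)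
      have e : Ng * (aff 0 (1 / 2) * Ng * κ) = (Ng * aff 0 (1 / 2) * Ng) * κ := by group
      rw [e]
      exact TP.mul_mem this hκ
    · rw [Equiv.Perm.mul_apply, Equiv.Perm.mul_apply, Eκ t t0 t1, Ng_apply, aff_apply, aff_apply,
        zpow_neg_one]
      simp; ring
  have hEG : E ∈ GG := Or.inr hE
  -- the involution rho
  obtain ⟨ρ, k, hρ, hρk, hρv, hρT, hρr⟩ : ∃ (ρ : Equiv.Perm ℝ) (k : ℤ), ρ ∈ GG ∧ ρ * ρ = tau ^ k ∧
      (∀ t, 5 / 8 ≤ t → t ≤ 7 / 8 → 1 / 8 ≤ ρ t ∧ ρ t ≤ 3 / 8) ∧ ρ * x * E⁻¹ ∈ TP ∧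
      (Ng * x ∈ TP ∨ Ng * ρ ∈ TP) := by
    rcases hx with hx | hx
    · have h1 : Ng * (aff 0 1 * Ng) ∈ TP := by
        rw [← mul_assoc]; exact Ng_conj (trans_mem Dy.one)
      have ev : ∀ t, (aff 0 1 * Ng) t = 1 - t := by
        intro t; simp [Equiv.Perm.mul_apply, aff_apply]; ring
      refine ⟨aff 0 1 * Ng, 0, Or.inr h1, ?_, fun t t0 t1 => ?_, ?_, Or.inr h1⟩
      · ext t
        rw [Equiv.Perm.mul_apply, ev, ev]; simp
      · rw [ev]; constructor <;> linarith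
      · exact rev_mul_rev (rev_mul_fwd h1 hx) (rev_inv hE)
    · have h1 : aff 0 (-(1 / 2)) ∈ TP := trans_mem half_dy.neg
      have ev : ∀ t, (aff 0 (-(1 / 2))) t = t - 1 / 2 := by
        intro t; simp [aff_apply]; ring
      refine ⟨aff 0 (-(1 / 2)), -1, Or.inl h1, ?_, fun t t0 t1 => ?_, ?_, Or.inl hx⟩
      · ext t
        rw [Equiv.Perm.mul_apply, ev, ev, tau_zpow]; push_cast; ring
      · rw [ev]; constructor <;> linarith
      · exact rev_mul_rev (fwd_mul_rev h1 hx) (rev_inv hE)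
  -- the correction v
  have E1 : E⁻¹ (3 / 16) = 5 / 8 := by
    rw [Equiv.Perm.inv_eq_iff_eq, hEv _ (by norm_num) le_rfl]; norm_num
  have E2 : E⁻¹ (9 / 16) = -1 / 8 := by
    rw [Equiv.Perm.inv_eq_iff_eq, hEv _ le_rfl (by norm_num)]; norm_num
  have b1 := hxJ (5 / 8) (by norm_num) le_rfl
  have b2 := hxJ (-1 / 8) le_rfl (by norm_num)
  have c1 := hρv _ b1.1.le b1.2.le
  have c2 := hρv _ b2.1.le b2.2.le
  obtain ⟨v, hv, v1, v2⟩ := exists_ext hρT.1 D316 D916 D18 D58 (by norm_num) (by norm_num)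
    (by norm_num) (by norm_num)
    (by rw [Equiv.Perm.mul_apply, Equiv.Perm.mul_apply, E1]; linarith [c1.1])
    (by rw [Equiv.Perm.mul_apply, Equiv.Perm.mul_apply, E2]; linarith [c2.2])
  have vR : v ∈ rist (-1 / 8) (5 / 8) := ⟨hv, v2⟩
  have vfix : ∀ t, 5 / 8 ≤ t → t ≤ 7 / 8 → v t = t := fun t t0 t1 => v2 t t0 (by linarith)
  have vE : ∀ t, -1 / 8 ≤ t → t ≤ 5 / 8 → v (E t) = ρ (x t) := by
    intro t t0 t1
    have e := hEv t t0 t1
    rw [v1 (E t) (by rw [e]; linarith) (by rw [e]; linarith), Equiv.Perm.mul_apply,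
      Equiv.Perm.mul_apply, ia]
  -- y0
  set y0 := v⁻¹ * ρ * v with hy0
  have y0G : y0 ∈ GG :=
    GG.mul_mem (GG.mul_mem (GG.inv_mem (TP_le_GG hv)) hρ) (TP_le_GG hv)
  have y0x : ∀ t, -1 / 8 ≤ t → t ≤ 5 / 8 → (y0 * x) t = 1 / 2 - t / 2 := by
    intro t t0 t1
    obtain ⟨d1, d2⟩ := hxJ t t0 t1
    rw [Equiv.Perm.mul_apply, hy0, Equiv.Perm.mul_apply, Equiv.Perm.mul_apply, vfix _ d1.le d2.le,
      ← vE t t0 t1, ia, hEv t t0 t1]
  have y0y0 : y0 * y0 = tau ^ k := by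
    have : y0 * y0 = v⁻¹ * (ρ * ρ) * v := by rw [hy0]; group
    rw [this, hρk, mul_assoc, tau_comm hv]; group
  -- the moved generator
  set s := xi 0 (-1) with hs
  have sR : s ∈ rist 0 (1 / 2) := s_mem
  set sx := x * s * x⁻¹ with hsx
  have sxR : sx ∈ rist (5 / 8) (7 / 8) := rist_conj (by norm_num) hx sR fun t t0 t1 =>
    hxJ t (by linarith) (by linarith)
  have sxfix : ∀ t, -1 / 8 ≤ t → t ≤ 5 / 8 → sx t = t := fun t t0 t1 =>
    rist_fix_left sxR (by linarith) t1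
  set y := sx * y0 with hy
  have yG : y ∈ GG := GG.mul_mem (TP_le_GG sxR.1) y0G
  set φ := y0 * sx * y0⁻¹ with hφ
  have φinv : φ⁻¹ = xi (1 / 4) (-2) := by
    have hform : φ⁻¹ = (y0 * x) * s⁻¹ * (y0 * x)⁻¹ := by rw [hφ, hsx]; group
    have hR : (y0 * x) * s⁻¹ * (y0 * x)⁻¹ ∈ rist (1 / 4) (1 / 2) :=
      rist_conj (by norm_num) (GG.mul_mem y0G hx) ((rist 0 (1 / 2)).inv_mem sR) fun t t0 t1 => by
        rw [y0x t (by linarith) (by linarith)]; constructor <;> linarith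
    refine IsXi.unique (a := 1 / 4) (e := -2) ?_ (xi_spec quarter_dy (by norm_num))
    rw [hform]
    refine ⟨hR.1, fun r r0 r1 => ?_⟩
    have e4 : (2 : ℝ) ^ (-2 : ℤ) = 1 / 4 := by norm_num
    rw [e4] at r1 ⊢
    rcases le_total r 1 with hr | hr
    · have e1 : (y0 * x)⁻¹ (1 / 4 + 1 / 4 * r) = (1 - r) / 2 := by
        rw [Equiv.Perm.inv_eq_iff_eq, y0x _ (by linarith) (by linarith)]; ring
      have q0 := x0_nonneg r0
      have q1 := x0_le_one hr
      have e2 : s⁻¹ ((1 - r) / 2) = (1 - x0 r) / 2 := by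
        rw [Equiv.Perm.inv_eq_iff_eq, hs, xi_half_val (by linarith) (by linarith), x0_sym r0 hr]
      rw [Equiv.Perm.mul_apply, Equiv.Perm.mul_apply, e1, e2, y0x _ (by linarith) (by linarith)]
      ring
    · rw [hR.2 _ (by linarith) (by linarith), x0_d hr]
  have φeq : φ = (xi (1 / 4) (-2))⁻¹ := by rw [← φinv, inv_inv]
  have φR : φ ∈ rist (1 / 4) (1 / 2) := by
    rw [φeq]; exact (rist (1 / 4) (1 / 2)).inv_mem phi_mem
  -- the group generated
  set H := Subgroup.closure {x, y, tau} with hH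
  have xH : x ∈ H := Subgroup.subset_closure (by simp)
  have yH : y ∈ H := Subgroup.subset_closure (by simp)
  have tH : tau ∈ H := Subgroup.subset_closure (by simp)
  have HG : H ≤ GG := by
    rw [hH, Subgroup.closure_le]
    rintro z (rfl | rfl | rfl)
    · exact hx
    · exact yG
    · exact TP_le_GG tau_mem_TP
  have qH : sx * φ ∈ H := by
    have e : sx * φ = y * y * (tau ^ k)⁻¹ := by
      rw [← y0y0, hy, hφ]; group
    rw [e]
    exact H.mul_mem (H.mul_mem yH yH) (H.inv_mem (H.zpow_mem tH k))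
  have φbig : φ ∈ rist (-1 / 8) (5 / 8) := rist_mono (by norm_num) (by norm_num) φR
  have hTP : TP ≤ H := by
    refine TP_le_of HG tH ⟨x⁻¹ * (sx * φ) * x, H.mul_mem (H.mul_mem (H.inv_mem xH) qH) xH,
      fun t t0 t1 => ?_⟩ ⟨sx * φ, qH, TP.mul_mem sxR.1 φR.1, fun t t0 t1 => ?_⟩
      ⟨y * x, H.mul_mem yH xH, fun t t0 t1 => ?_⟩ ⟨y, yH, fun t t0 t1 => ?_⟩
    · obtain ⟨d1, d2⟩ := hxJ t t0 t1
      have e1 : φ (x t) = x t := φR.2 _ (by linarith) (by linarith)
      have e2 : sx (x t) = x (s t) := by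
        rw [hsx, Equiv.Perm.mul_apply, Equiv.Perm.mul_apply, ia]
      rw [Equiv.Perm.mul_apply, Equiv.Perm.mul_apply, Equiv.Perm.mul_apply, e1, e2, ia]
    · obtain ⟨d1, d2⟩ := rist_bounds (by norm_num) φbig t0 t1
      rw [Equiv.Perm.mul_apply, sxfix _ d1 d2, φeq]
    · have e := y0x t t0 t1
      rw [Equiv.Perm.mul_apply] at e
      rw [Equiv.Perm.mul_apply, hy, Equiv.Perm.mul_apply, e, sxfix _ (by linarith) (by linarith)]
    · obtain ⟨d1, d2⟩ := hρv t t0 t1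
      obtain ⟨d3, d4⟩ := rist_bounds' (c := -1 / 8) (d := 5 / 8) (by norm_num)
        ((rist (-1 / 8) (5 / 8)).inv_mem vR) (t := ρ t) (by linarith) (by linarith)
      have e0 : y0 t = v⁻¹ (ρ t) := by
        rw [hy0, Equiv.Perm.mul_apply, Equiv.Perm.mul_apply, vfix t t0 t1]
      have e : y t = v⁻¹ (ρ t) := by
        change sx (y0 t) = _
        rw [e0, sxfix _ d3.le d4.le]
      rw [e]; exact ⟨d3, d4⟩
  refine ⟨y, yG, ?_⟩
  -- an orientation reversing element of H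
  obtain ⟨w, wH, wr⟩ : ∃ w ∈ H, Ng * w ∈ TP := by
    rcases hρr with h | h
    · exact ⟨x, xH, h⟩
    · refine ⟨y, yH, ?_⟩
      rw [hy]
      apply fwd_mul_rev sxR.1
      rw [hy0]
      apply rev_mul_fwd _ hv
      exact fwd_mul_rev (TP.inv_mem hv) h
  intro f hf
  rcases hf with hf | hf
  · exact hTP hf
  · have : f = (f * w⁻¹) * w := by group
    rw [this]
    exact H.mul_mem (hTP (rev_mul_rev hf (rev_inv wr))) wH

/-- an element that is not a power of `tau` moves some point off its `ℤ`-class -/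
theorem exists_moved {x : Equiv.Perm ℝ} (hx : x ∈ GG) (hxt : ∀ n : ℤ, x ≠ tau ^ n) :
    ∃ t, ∀ n : ℤ, x t ≠ t + n := by
  by_contra hcon
  push Not at hcon
  rcases hx with hx | hx
  · obtain ⟨m, hm⟩ := hcon 0
    apply hxt m
    refine TP.ext hx (TP.zpow_mem tau_mem_TP m) 0 fun t t0 t1 => ?_
    rw [tau_zpow]
    obtain ⟨n, hn⟩ := hcon t
    rcases t1.lt_or_eq with t1 | t1
    · have h1 : x 0 ≤ x t := hx.1.1.monotone t0
      have h2 : x t < x (0 + 1) := hx.1.1 t1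
      rw [hx.2] at h2
      rw [hn, hm] at h1 h2
      have h3 : (m : ℝ) - 1 < n := by linarith
      have h4 : (n : ℝ) < m + 1 := by linarith
      have h5 : m - 1 < n := by exact_mod_cast h3
      have h6 : n < m + 1 := by exact_mod_cast h4
      have h7 : n = m := by omega
      rw [hn, h7]
    · rw [t1, hx.2, hm]; ring
  · have an := rev_anti hx
    obtain ⟨a, ha⟩ := hcon 0
    obtain ⟨b, hb⟩ := hcon (1 / 4)
    obtain ⟨c, hc⟩ := hcon (1 / 2)
    have s0 := rev_shift hx 1 0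
    push_cast at s0
    have h1 := an (show (0 : ℝ) < 1 / 4 by norm_num)
    have h2 := an (show (1 : ℝ) / 4 < 1 / 2 by norm_num)
    have h3 := an (show (1 : ℝ) / 2 < 0 + 1 by norm_num)
    rw [s0] at h3
    rw [ha] at h1 h3
    rw [hb] at h1 h2
    rw [hc] at h2 h3
    have k1 : (b : ℝ) < a := by linarith
    have k2 : (c : ℝ) < b := by linarith
    have k3 : (a : ℝ) - 2 < c := by linarith
    have l1 : b < a := by exact_mod_cast k1
    have l2 : c < b := by exact_mod_cast k2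
    have l3 : a - 2 < c := by exact_mod_cast k3
    omega

/-- every element that is not a power of `tau` has a mate modulo `tau` -/
theorem exists_mate {x : Equiv.Perm ℝ} (hx : x ∈ GG) (hxt : ∀ n : ℤ, x ≠ tau ^ n) :
    ∃ y ∈ GG, GG ≤ Subgroup.closure {x, y, tau} := by
  obtain ⟨t0, ht0⟩ := exists_moved hx hxt
  set n := ⌊x t0 - t0⌋ with hn
  have m1 := Int.floor_le (x t0 - t0)
  have m2 := Int.lt_floor_add_one (x t0 - t0)
  rw [← hn] at m1 m2
  have m1' : (n : ℝ) < x t0 - t0 := lt_of_le_of_ne m1 fun h => ht0 n (by linarith)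
  obtain ⟨b1, hb1, hb1'⟩ := exists_between (show t0 < x t0 - n by linarith)
  obtain ⟨a2, ha2, ha2'⟩ := exists_between (show x t0 - n - 1 < t0 by linarith)
  have hcont := (GG.continuous hx).continuousAt (x := t0)
  have hev : ∀ᶠ t in 𝓝 t0, b1 + n < x t ∧ x t < a2 + n + 1 := by
    have h1 : ∀ᶠ t in 𝓝 t0, b1 + n < x t := hcont.eventually (lt_mem_nhds (by linarith))
    have h2 : ∀ᶠ t in 𝓝 t0, x t < a2 + n + 1 := hcont.eventually (gt_mem_nhds (by linarith))
    exact h1.and h2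
  have hev2 : ∀ᶠ t in 𝓝 t0, a2 < t ∧ t < b1 :=
    (lt_mem_nhds ha2').and (gt_mem_nhds hb1)
  obtain ⟨ε, hε, hball⟩ := Metric.eventually_nhds_iff.1 (hev.and hev2)
  obtain ⟨p, dp, p1, p2⟩ := Dy.exists_between (show t0 - ε < t0 by linarith)
  obtain ⟨k, hk⟩ := pow_unbounded_of_one_lt (1 / (t0 - p) + 1 / (p - (t0 - ε)))
    (by norm_num : (1 : ℝ) < 2)
  have hpk : (0 : ℝ) < 2 ^ k := by positivity
  have w1 : 1 / (t0 - p) < 2 ^ k := by
    have : 0 < 1 / (p - (t0 - ε)) := by apply one_div_pos.2; linarith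
    linarith
  have w2 : 1 / (p - (t0 - ε)) < 2 ^ k := by
    have : 0 < 1 / (t0 - p) := by apply one_div_pos.2; linarith
    linarith
  rw [div_lt_iff₀ (by linarith)] at w1 w2
  -- radius 2^-k
  have hr0 : (0 : ℝ) < (2 ^ k)⁻¹ := by positivity
  have hr1 : ((2 : ℝ) ^ k)⁻¹ < t0 - p := by
    rw [inv_lt_iff_one_lt_mul₀ hpk]; linarith
  have hr2 : ((2 : ℝ) ^ k)⁻¹ < p - (t0 - ε) := by
    rw [inv_lt_iff_one_lt_mul₀ hpk]; linarith
  have hrle : ((2 : ℝ) ^ k)⁻¹ ≤ 1 := by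
    rw [inv_le_one₀ hpk]; exact one_le_pow₀ (by norm_num)
  have D18 : Dy (-1 / 8) := by have := dyq (-1) 3; norm_num at this ⊢; exact this
  have D58 : Dy (5 / 8) := by have := dyq 5 3; norm_num at this ⊢; exact this
  have affv : ∀ t, aff (-(k : ℤ)) p t = (2 ^ k)⁻¹ * t + p := by
    intro t; rw [aff_apply, zpow_neg, zpow_natCast]
  obtain ⟨g, hg, gv⟩ := exists_TP_of_local (aff_mem (-(k : ℤ)) dp) D18 D58 (by norm_num)
    (by norm_num) (by rw [affv, affv]; linarith)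
  have gval : ∀ t, -1 / 8 ≤ t → t ≤ 5 / 8 → g t = (2 ^ k)⁻¹ * t + p := by
    intro t h1 h2; rw [gv t h1 h2, affv]
  have hnear : ∀ t, -1 / 8 ≤ t → t ≤ 5 / 8 → t0 - ε < g t ∧ g t < t0 := by
    intro t h1 h2
    rw [gval t h1 h2]
    constructor <;> nlinarith
  have hgood : ∀ t, -1 / 8 ≤ t → t ≤ 5 / 8 → (b1 + n < x (g t) ∧ x (g t) < a2 + n + 1) ∧
      (a2 < g t ∧ g t < b1) := by
    intro t h1 h2
    obtain ⟨h3, h4⟩ := hnear t h1 h2
    apply hball
    rw [Real.dist_eq, abs_lt]; constructor <;> linarith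
  set x' := tau ^ (-n) * (g⁻¹ * x * g) with hx'
  have hx'G : x' ∈ GG := GG.mul_mem (TP_le_GG (TP.zpow_mem tau_mem_TP _))
    (GG.mul_mem (GG.mul_mem (GG.inv_mem (TP_le_GG hg)) hx) (TP_le_GG hg))
  have hmono := hg.1.1
  have hx'J : ∀ t, -1 / 8 ≤ t → t ≤ 5 / 8 → 5 / 8 < x' t ∧ x' t < 7 / 8 := by
    intro t h1 h2
    obtain ⟨⟨u1, u2⟩, u3⟩ := hgood t h1 h2
    have ev : x' t = g⁻¹ (x (g t)) - n := by
      rw [hx', Equiv.Perm.mul_apply, tau_zpow, Equiv.Perm.mul_apply, Equiv.Perm.mul_apply]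
      push_cast; ring
    have k1 := (hgood (5 / 8) (by norm_num) le_rfl).2.2
    have k2 := (hgood (-1 / 8) le_rfl (by norm_num)).2.1
    have l1 : (5 / 8 : ℝ) + n < g⁻¹ (x (g t)) := by
      rw [← hmono.lt_iff_lt, ai, TP.add_int hg]; linarith
    have l2 : g⁻¹ (x (g t)) < (-1 / 8 : ℝ) + (n + 1 : ℤ) := by
      rw [← hmono.lt_iff_lt, ai, TP.add_int hg]; push_cast; linarith
    push_cast at l2
    rw [ev]; constructor <;> linarith
  obtain ⟨y', hy', hle⟩ := exists_mate_norm hx'G hx'J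
  refine ⟨g * y' * g⁻¹, GG.mul_mem (GG.mul_mem (TP_le_GG hg) hy') (GG.inv_mem (TP_le_GG hg)), ?_⟩
  intro f hf
  have hf' : g⁻¹ * f * g ∈ Subgroup.closure {x', y', tau} :=
    hle (GG.mul_mem (GG.mul_mem (GG.inv_mem (TP_le_GG hg)) hf) (TP_le_GG hg))
  set K := Subgroup.closure {x, g * y' * g⁻¹, tau} with hK
  have xK : x ∈ K := Subgroup.subset_closure (by simp)
  have yK : g * y' * g⁻¹ ∈ K := Subgroup.subset_closure (by simp)
  have tK : tau ∈ K := Subgroup.subset_closure (by simp)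
  have key : ∀ h ∈ Subgroup.closure {x', y', tau}, g * h * g⁻¹ ∈ K := by
    intro h hh
    induction hh using Subgroup.closure_induction with
    | mem z hz =>
      rcases hz with rfl | rfl | rfl
      · have e : g * x' * g⁻¹ = tau ^ (-n) * x := by
          rw [hx']
          have := tau_comm hg (-n)
          calc g * (tau ^ (-n) * (g⁻¹ * x * g)) * g⁻¹ = (g * tau ^ (-n)) * (g⁻¹ * x) := by group
            _ = (tau ^ (-n) * g) * (g⁻¹ * x) := by rw [this]
            _ = _ := by group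
        rw [e]
        exact K.mul_mem (K.zpow_mem tK _) xK
      · exact yK
      · have := tau_comm hg 1
        rw [zpow_one] at this
        have e : g * tau * g⁻¹ = tau := by rw [← this]; group
        rw [e]; exact tK
    | one => simp
    | mul a b _ _ iha ihb =>
      have e : g * (a * b) * g⁻¹ = (g * a * g⁻¹) * (g * b * g⁻¹) := by group
      rw [e]; exact K.mul_mem iha ihb
    | inv a _ iha =>
      have e : g * a⁻¹ * g⁻¹ = (g * a * g⁻¹)⁻¹ := by group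
      rw [e]; exact K.inv_mem iha
  have := key _ hf'
  have e : g * (g⁻¹ * f * g) * g⁻¹ = f := by group
  rwa [e] at this

/-- an orientation reversing lift has a fixed point -/
theorem rev_fixed {y : Equiv.Perm ℝ} (hy : Ng * y ∈ TP) : ∃ p, y p = p := by
  have hG : y ∈ GG := Or.inr hy
  have hc : Continuous fun t => y t - t := (GG.continuous hG).sub continuous_id
  obtain ⟨n, hn⟩ := exists_nat_gt (|y 0|)
  have h1 := rev_shift hy n 0
  have h2 := rev_shift hy (-n) 0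
  have a1 := abs_lt.1 (lt_of_le_of_lt le_rfl hn)
  push_cast at h1 h2
  rw [zero_add] at h1 h2
  have hn0 : (0 : ℝ) ≤ n := by positivity
  have : (0 : ℝ) ∈ Set.Icc (y (n : ℝ) - n) (y (-(n : ℝ)) - (-(n : ℝ))) := by
    constructor
    · rw [h1]; linarith
    · rw [h2]; linarith
  obtain ⟨p, hp⟩ := mem_range_of_exists_le_of_exists_ge hc ⟨(n : ℝ), this.1⟩
    ⟨-(n : ℝ), this.2⟩
  exact ⟨p, by linarith⟩

end Pool.Agent.MP_317377_al
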