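import Pool.Agent.MP_317377_al.Gen

/-! The full group of lifts, with orientation reversing elements. -/

namespace Pool.Agent.MP_317377_al

open Set Filter Topology commutatorElement

/-- negation -/
def Ng : Equiv.Perm ℝ := Equiv.neg ℝ

@[simp] theorem Ng_apply (t : ℝ) : Ng t = -t := rfl

theorem Ng_mul_Ng : Ng * Ng = 1 := by ext t; simp [Equiv.Perm.mul_apply]

theorem Ng_inv : Ng⁻¹ = Ng := inv_eq_of_mul_eq_one_left Ng_mul_Ng

theorem Ng_conj {f : Equiv.Perm ℝ} (hf : f ∈ TP) : Ng * f * Ng ∈ TP := by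
  have ev : ∀ t, (Ng * f * Ng) t = - f (-t) := fun t => rfl
  refine ⟨⟨fun s t hst => ?_, fun s => ?_, fun t => ?_⟩, fun t => ?_⟩
  · rw [ev, ev]
    have := hf.1.1 (neg_lt_neg hst)
    linarith
  · rw [ev]
    constructor
    · intro h
      have h1 := h.neg
      rw [neg_neg, hf.1.2.dy] at h1
      simpa using h1.neg
    · intro h
      exact ((hf.1.2.dy _).2 h.neg).neg
  · obtain ⟨k, l, ⟨δ, hδ, h1⟩, ⟨δ', hδ', h2⟩, h3⟩ := hf.1.2.slope (-t)
    refine ⟨l, k, ⟨δ', hδ', fun s hs hs' => ?_⟩, ⟨δ, hδ, fun s hs hs' => ?_⟩, fun ht => ?_⟩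
    · rw [ev, ev, h2 (-s) (by linarith) (by linarith)]; ring
    · rw [ev, ev, h1 (-s) (by linarith) (by linarith)]; ring
    · rw [h3]
      intro h
      exact ht (by simpa using h.neg)
  · rw [ev, ev]
    have := TP.sub_int hf 1 (-t)
    push_cast at this
    have e : -(t + 1) = -t - 1 := by ring
    rw [e, this]; ring

/-- all lifts -/
def GG : Subgroup (Equiv.Perm ℝ) where
  carrier := {f | f ∈ TP ∨ Ng * f ∈ TP}
  mul_mem' := by
    rintro f g (hf | hf) (hg | hg)
    · exact Or.inl (TP.mul_mem hf hg)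
    · right
      have : Ng * (f * g) = (Ng * f * Ng) * (Ng * g) := by
        have := Ng_mul_Ng
        calc Ng * (f * g) = Ng * f * 1 * g := by group
          _ = Ng * f * (Ng * Ng) * g := by rw [this]
          _ = _ := by group
      rw [this]
      exact TP.mul_mem (Ng_conj hf) hg
    · right
      rw [← mul_assoc]
      exact TP.mul_mem hf hg
    · left
      have : f * g = (Ng * (Ng * f) * Ng) * (Ng * g) := by
        have := Ng_mul_Ng
        calc f * g = 1 * f * 1 * g := by group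
          _ = (Ng * Ng) * f * (Ng * Ng) * g := by rw [this]
          _ = _ := by group
      rw [this]
      exact TP.mul_mem (Ng_conj hf) hg
  one_mem' := Or.inl TP.one_mem
  inv_mem' := by
    rintro f (hf | hf)
    · exact Or.inl (TP.inv_mem hf)
    · right
      have : Ng * f⁻¹ = Ng * (Ng * f)⁻¹ * Ng := by
        rw [mul_inv_rev, Ng_inv]
        have := Ng_mul_Ng
        calc Ng * f⁻¹ = Ng * f⁻¹ * 1 := by group
          _ = Ng * f⁻¹ * (Ng * Ng) := by rw [this]
          _ = _ := by group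
      rw [this]
      exact Ng_conj (TP.inv_mem hf)

theorem TP_le_GG : TP ≤ GG := fun _ h => Or.inl h

theorem Ng_mem : Ng ∈ GG := Or.inr (by rw [Ng_mul_Ng]; exact TP.one_mem)

theorem Ng_mul_mem {f : Equiv.Perm ℝ} (hf : Ng * f ∈ TP) : f = Ng * (Ng * f) := by
  rw [← mul_assoc, Ng_mul_Ng, one_mul]

theorem TP_normal {h f : Equiv.Perm ℝ} (hh : h ∈ GG) (hf : f ∈ TP) : h * f * h⁻¹ ∈ TP := by
  rcases hh with hh | hh
  · exact TP.mul_mem (TP.mul_mem hh hf) (TP.inv_mem hh)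
  · have e := Ng_mul_mem hh
    set k := Ng * h
    have : h * f * h⁻¹ = Ng * (k * f * k⁻¹) * Ng := by
      rw [e, mul_inv_rev, Ng_inv]; group
    rw [this]
    exact Ng_conj (TP.mul_mem (TP.mul_mem hh hf) (TP.inv_mem hh))

theorem TP_normal' {h f : Equiv.Perm ℝ} (hh : h ∈ GG) (hf : f ∈ TP) : h⁻¹ * f * h ∈ TP := by
  have := TP_normal (GG.inv_mem hh) hf
  rwa [inv_inv] at this

theorem rev_shift {f : Equiv.Perm ℝ} (hf : Ng * f ∈ TP) (n : ℤ) (t : ℝ) :
    f (t + n) = f t - n := by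
  have := TP.add_int hf n t
  simp only [Equiv.Perm.mul_apply, Ng_apply] at this
  linarith

theorem rev_anti {f : Equiv.Perm ℝ} (hf : Ng * f ∈ TP) : StrictAnti f := by
  intro s t hst
  have := hf.1.1 hst
  simp only [Equiv.Perm.mul_apply, Ng_apply] at this
  linarith

theorem GG.shift {f : Equiv.Perm ℝ} (hf : f ∈ GG) :
    ∃ ε : ℤ, (ε = 1 ∨ ε = -1) ∧ ∀ (n : ℤ) t, f (t + n) = f t + (ε * n : ℤ) := by
  rcases hf with hf | hf
  · exact ⟨1, Or.inl rfl, fun n t => by rw [TP.add_int hf]; simp⟩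
  · exact ⟨-1, Or.inr rfl, fun n t => by rw [rev_shift hf]; push_cast; ring⟩

theorem GG.continuous {f : Equiv.Perm ℝ} (hf : f ∈ GG) : Continuous f := by
  have h1 : ∀ g : Equiv.Perm ℝ, g ∈ TP → Continuous g := fun g hg =>
    (StrictMono.orderIsoOfSurjective g hg.1.1 g.surjective).continuous
  rcases hf with hf | hf
  · exact h1 f hf
  · have : (f : ℝ → ℝ) = fun t => - ((Ng * f) t) := by
      ext t; simp [Equiv.Perm.mul_apply]
    rw [this]
    exact (h1 _ hf).neg

theorem GG.dy {f : Equiv.Perm ℝ} (hf : f ∈ GG) (s : ℝ) : Dy (f s) ↔ Dy s := by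
  rcases hf with hf | hf
  · exact hf.1.2.dy s
  · have := hf.1.2.dy s
    simp only [Equiv.Perm.mul_apply, Ng_apply] at this
    rw [← this]
    exact ⟨Dy.neg, fun h => by simpa using h.neg⟩

/-- an element of `rist c d` only moves points of `(c,d)` modulo one -/
theorem rist_moves {c d : ℝ} (hcd : d ≤ c + 1) {f : Equiv.Perm ℝ} (hf : f ∈ rist c d) {t : ℝ}
    (h : f t ≠ t) : ∃ n : ℤ, c < t + n ∧ t + n < d := by
  have h1 := Int.floor_le (t - c)
  have h2 := Int.lt_floor_add_one (t - c)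
  refine ⟨-⌊t - c⌋, ?_, ?_⟩
  · push_cast
    rcases h1.lt_or_eq with h1 | h1
    · linarith
    · exfalso
      apply h
      have e1 : f (c + 1) = c + 1 := hf.2 _ hcd le_rfl
      rw [hf.1.2] at e1
      have e2 := TP.add_int hf.1 ⌊t - c⌋ c
      have e3 : c + ⌊t - c⌋ = t := by rw [h1]; ring
      rw [e3] at e2
      rw [e2]; linarith
  · push_cast
    by_contra hcon
    rw [not_lt] at hcon
    apply h
    have e1 := hf.2 (t + -⌊t - c⌋) hcon (by linarith)
    have e2 := TP.add_int hf.1 (-⌊t - c⌋) t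
    push_cast at e2
    rw [e2] at e1
    linarith

/-- conjugating a local group into another interval -/
theorem rist_conj {c d c' d' : ℝ} (hcd : d ≤ c + 1) {h f : Equiv.Perm ℝ}
    (hh : h ∈ GG) (hf : f ∈ rist c d) (H : ∀ t, c < t → t < d → c' < h t ∧ h t < d') :
    h * f * h⁻¹ ∈ rist c' d' := by
  refine ⟨TP_normal hh hf.1, fun t t0 t1 => ?_⟩
  by_contra hcon
  have h1 : f (h⁻¹ t) ≠ h⁻¹ t := by
    intro e
    apply hcon
    rw [Equiv.Perm.mul_apply, Equiv.Perm.mul_apply, e, ai]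
  obtain ⟨n, n1, n2⟩ := rist_moves hcd hf h1
  obtain ⟨ε, -, hε⟩ := GG.shift hh
  have e := hε n (h⁻¹ t)
  rw [ai] at e
  obtain ⟨h3, h4⟩ := H _ n1 n2
  rw [e] at h3 h4
  have h5 : ((ε * n : ℤ) : ℝ) < 0 := by linarith
  have h6 : (ε * n : ℤ) < 0 := by exact_mod_cast h5
  have h7 : (ε * n : ℤ) ≤ -1 := by omega
  have h8 : ((ε * n : ℤ) : ℝ) ≤ -1 := by exact_mod_cast h7
  linarith

theorem rist_mono {c d c' d' : ℝ} (h1 : c' ≤ c) (h2 : d ≤ d') : rist c d ≤ rist c' d' :=
  fun _ hf => ⟨hf.1, fun t h3 h4 => hf.2 t (by linarith) (by linarith)⟩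

theorem rist_fix_c {c d : ℝ} (hcd : d ≤ c + 1) {f : Equiv.Perm ℝ} (hf : f ∈ rist c d) :
    f c = c := rist_fix_left hf (by linarith) le_rfl

theorem rist_fix_d {c d : ℝ} (hcd : d ≤ c + 1) {f : Equiv.Perm ℝ} (hf : f ∈ rist c d) :
    f d = d := hf.2 d le_rfl hcd

theorem rist_bounds {c d : ℝ} (hcd : d ≤ c + 1) {f : Equiv.Perm ℝ} (hf : f ∈ rist c d) {t : ℝ}
    (h1 : c ≤ t) (h2 : t ≤ d) : c ≤ f t ∧ f t ≤ d := by
  constructor
  · have := hf.1.1.1.monotone h1
    rwa [rist_fix_c hcd hf] at this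
  · have := hf.1.1.1.monotone h2
    rwa [rist_fix_d hcd hf] at this

theorem rist_bounds' {c d : ℝ} (hcd : d ≤ c + 1) {f : Equiv.Perm ℝ} (hf : f ∈ rist c d) {t : ℝ}
    (h1 : c < t) (h2 : t < d) : c < f t ∧ f t < d := by
  constructor
  · have := hf.1.1.1 h1
    rwa [rist_fix_c hcd hf] at this
  · have := hf.1.1.1 h2
    rwa [rist_fix_d hcd hf] at this

/-- elements with disjoint supports commute -/
theorem rist_commute {c d c' d' : ℝ} (h1 : c ≤ d) (h2 : d ≤ c') (h3 : c' ≤ d') (h4 : d' ≤ c + 1)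
    {f g : Equiv.Perm ℝ} (hf : f ∈ rist c d) (hg : g ∈ rist c' d') : f * g = g * f := by
  refine TP.ext (TP.mul_mem hf.1 hg.1) (TP.mul_mem hg.1 hf.1) c fun t t0 t1 => ?_
  rw [Equiv.Perm.mul_apply, Equiv.Perm.mul_apply]
  rcases le_total t d with ht | ht
  · obtain ⟨b1, b2⟩ := rist_bounds (by linarith) hf t0 ht
    rw [rist_fix_left hg (by linarith) (by linarith), rist_fix_left hg (by linarith) (by linarith)]
  · rw [hf.2 t ht t1]
    apply hf.2
    · have := hg.1.1.1.monotone ht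
      rwa [rist_fix_left hg (by linarith) (by linarith)] at this
    · have := hg.1.1.1.monotone t1
      rwa [hg.2 (c + 1) h4 (by linarith)] at this

end Pool.Agent.MP_317377_al
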