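import Pool.Agent.MP_317377_al.Tree

/-! Local groups, their generators and their commutators. -/

namespace Pool.Agent.MP_317377_al

open Set Filter Topology commutatorElement

/-- orientation preserving elements supported in `[c,d]` modulo one -/
def rist (c d : ℝ) : Subgroup (Equiv.Perm ℝ) where
  carrier := {f | f ∈ TP ∧ ∀ t, d ≤ t → t ≤ c + 1 → f t = t}
  mul_mem' := fun {f g} hf hg => ⟨TP.mul_mem hf.1 hg.1, fun t h1 h2 => by
    rw [Equiv.Perm.mul_apply, hg.2 t h1 h2, hf.2 t h1 h2]⟩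
  one_mem' := ⟨TP.one_mem, fun _ _ _ => rfl⟩
  inv_mem' := fun {f} hf => ⟨TP.inv_mem hf.1, fun t h1 h2 => by
    rw [Equiv.Perm.inv_eq_iff_eq, hf.2 t h1 h2]⟩

theorem TP.ext {f g : Equiv.Perm ℝ} (hf : f ∈ TP) (hg : g ∈ TP) (a : ℝ)
    (h : ∀ t, a ≤ t → t ≤ a + 1 → f t = g t) : f = g := by
  ext t
  have h1 := Int.floor_le (t - a)
  have h2 := Int.lt_floor_add_one (t - a)
  have e := h (t - ⌊t - a⌋) (by linarith) (by linarith)
  rw [TP.sub_int hf, TP.sub_int hg] at e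
  linarith

theorem exists_x0 : ∃ X ∈ PP, (∀ t ≤ 0, X t = t) ∧ (∀ t, 0 ≤ t → t ≤ 1 / 4 → X t = 2 * t) ∧
    (∀ t, 1 / 4 ≤ t → t ≤ 1 / 2 → X t = t + 1 / 4) ∧
    (∀ t, 1 / 2 ≤ t → t ≤ 1 → X t = (t + 1) / 2) ∧ (∀ t, 1 ≤ t → X t = t) := by
  have d2 : Dy (1 / 2) := Dy.one.half
  have d4 : Dy (1 / 4) := by
    have := d2.half
    have e : (1 : ℝ) / 2 / 2 = 1 / 4 := by norm_num
    rwa [e] at this
  obtain ⟨F3, h3, a3, b3⟩ := exists_glue (aff_mem (-1) d2) PP.one_mem Dy.one (by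
    simp [aff_apply]; norm_num)
  obtain ⟨F2, h2, a2, b2⟩ := exists_glue (aff_mem 0 d4) h3 d2 (by
    rw [a3 _ (by norm_num)]; simp [aff_apply]; norm_num)
  obtain ⟨F1, h1, a1, b1⟩ := exists_glue (aff_mem 1 Dy.zero) h2 d4 (by
    rw [a2 _ (by norm_num)]; simp [aff_apply]; norm_num)
  obtain ⟨F0, h0, a0, b0⟩ := exists_glue PP.one_mem h1 Dy.zero (by
    rw [a1 _ (by norm_num)]; simp [aff_apply])
  refine ⟨F0, h0, fun t ht => by rw [a0 t ht]; rfl, fun t h h' => ?_, fun t h h' => ?_,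
    fun t h h' => ?_, fun t h => ?_⟩
  · rw [b0 t h, a1 t h']; simp [aff_apply]
  · rw [b0 t (by linarith), b1 t h, a2 t h']; simp [aff_apply]
  · rw [b0 t (by linarith), b1 t (by linarith), b2 t h, a3 t h']; simp [aff_apply]; ring
  · rw [b0 t (by linarith), b1 t (by linarith), b2 t (by linarith), b3 t h]; rfl

/-- the standard generator -/
noncomputable def x0 : Equiv.Perm ℝ := exists_x0.choose

theorem x0_mem : x0 ∈ PP := exists_x0.choose_spec.1
theorem x0_neg {t : ℝ} (h : t ≤ 0) : x0 t = t := exists_x0.choose_spec.2.1 t h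
theorem x0_a {t : ℝ} (h : 0 ≤ t) (h' : t ≤ 1 / 4) : x0 t = 2 * t :=
  exists_x0.choose_spec.2.2.1 t h h'
theorem x0_b {t : ℝ} (h : 1 / 4 ≤ t) (h' : t ≤ 1 / 2) : x0 t = t + 1 / 4 :=
  exists_x0.choose_spec.2.2.2.1 t h h'
theorem x0_c {t : ℝ} (h : 1 / 2 ≤ t) (h' : t ≤ 1) : x0 t = (t + 1) / 2 :=
  exists_x0.choose_spec.2.2.2.2.1 t h h'
theorem x0_d {t : ℝ} (h : 1 ≤ t) : x0 t = t := exists_x0.choose_spec.2.2.2.2.2 t h

theorem x0_nonneg {t : ℝ} (h : 0 ≤ t) : 0 ≤ x0 t := by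
  have := x0_mem.1.monotone h
  rwa [x0_neg le_rfl] at this

theorem x0_le_one {t : ℝ} (h : t ≤ 1) : x0 t ≤ 1 := by
  have := x0_mem.1.monotone h
  rwa [x0_d le_rfl] at this

theorem x0_ge {t : ℝ} (h : 0 ≤ t) : t ≤ x0 t := by
  rcases le_total t (1 / 4) with h1 | h1
  · rw [x0_a h h1]; linarith
  rcases le_total t (1 / 2) with h2 | h2
  · rw [x0_b h1 h2]; linarith
  rcases le_total t 1 with h3 | h3
  · rw [x0_c h2 h3]; linarith
  · rw [x0_d h3]

/-- `x` is the copy of `x0` on `[a, a + 2 ^ e]` -/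
def IsXi (a : ℝ) (e : ℤ) (x : Equiv.Perm ℝ) : Prop :=
  x ∈ TP ∧ ∀ r, 0 ≤ r → 2 ^ e * r ≤ 1 → x (a + 2 ^ e * r) = a + 2 ^ e * x0 r

theorem coord (a : ℝ) (e : ℤ) {t : ℝ} (h : a ≤ t) (h' : t ≤ a + 1) :
    ∃ r, 0 ≤ r ∧ 2 ^ e * r ≤ 1 ∧ t = a + 2 ^ e * r := by
  have hp := zpow2_pos e
  have e1 : 2 ^ e * ((t - a) / 2 ^ e) = t - a := by field_simp
  exact ⟨(t - a) / 2 ^ e, div_nonneg (by linarith) hp.le, by rw [e1]; linarith,
    by rw [e1]; ring⟩

theorem IsXi.unique {a : ℝ} {e : ℤ} {x x' : Equiv.Perm ℝ} (h : IsXi a e x) (h' : IsXi a e x') :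
    x = x' := by
  refine TP.ext h.1 h'.1 a fun t h1 h2 => ?_
  obtain ⟨r, r0, r1, rfl⟩ := coord a e h1 h2
  rw [h.2 r r0 r1, h'.2 r r0 r1]

theorem zpow2_le_one {e : ℤ} (he : e ≤ 0) : (2 : ℝ) ^ e ≤ 1 := by
  calc (2 : ℝ) ^ e ≤ 2 ^ (0 : ℤ) := zpow_le_zpow_right₀ (by norm_num) he
    _ = 1 := by simp

theorem exists_xi {a : ℝ} {e : ℤ} (ha : Dy a) (he : e ≤ 0) : ∃ x, IsXi a e x := by
  have hp := zpow2_pos e
  have h1 := zpow2_le_one he
  have hA := aff_mem e ha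
  have hF : aff e a * x0 * (aff e a)⁻¹ ∈ PP := PP.mul_mem (PP.mul_mem hA x0_mem) (PP.inv_mem hA)
  have e0 : ∀ r, (aff e a * x0 * (aff e a)⁻¹) (a + 2 ^ e * r) = a + 2 ^ e * x0 r := by
    intro r
    have : (aff e a)⁻¹ (a + 2 ^ e * r) = r := by
      rw [Equiv.Perm.inv_eq_iff_eq, aff_apply]; ring
    rw [Equiv.Perm.mul_apply, Equiv.Perm.mul_apply, this, aff_apply]; ring
  have e2 : (2 : ℝ) ^ e * (2 ^ e)⁻¹ = 1 := by field_simp
  have e1 : (aff e a * x0 * (aff e a)⁻¹) (a + 1) = (aff e a * x0 * (aff e a)⁻¹) a + 1 := by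
    have h2 := e0 0
    have h3 := e0 ((2 ^ e)⁻¹)
    rw [x0_neg le_rfl] at h2
    rw [x0_d ((one_le_inv₀ hp).2 h1), e2] at h3
    rw [mul_zero, add_zero] at h2
    rw [h2, h3]
  obtain ⟨P, hP, h4⟩ := exists_per hF ha e1
  refine ⟨P, hP, fun r r0 r1 => ?_⟩
  rw [h4 _ (by nlinarith) (by linarith), e0]

open Classical in
/-- the copy of `x0` on `[a, a + 2 ^ e]` -/
noncomputable def xi (a : ℝ) (e : ℤ) : Equiv.Perm ℝ :=
  if h : Dy a ∧ e ≤ 0 then (exists_xi h.1 h.2).choose else 1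

theorem xi_spec {a : ℝ} {e : ℤ} (ha : Dy a) (he : e ≤ 0) : IsXi a e (xi a e) := by
  rw [xi, dif_pos ⟨ha, he⟩]
  exact (exists_xi ha he).choose_spec

theorem xi_fix {a : ℝ} {e : ℤ} (ha : Dy a) (he : e ≤ 0) {t : ℝ} (h : a + 2 ^ e ≤ t)
    (h' : t ≤ a + 1) : xi a e t = t := by
  have hp := zpow2_pos e
  obtain ⟨r, r0, r1, rfl⟩ := coord a e (by linarith) h'
  have : 1 ≤ r := by
    by_contra hcon
    rw [not_le] at hcon
    nlinarith
  rw [(xi_spec ha he).2 r r0 r1, x0_d this]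

theorem xi_mem_rist {a c d : ℝ} {e : ℤ} (ha : Dy a) (he : e ≤ 0) (hc : c ≤ a)
    (hd : a + 2 ^ e ≤ d) : xi a e ∈ rist c d :=
  ⟨(xi_spec ha he).1, fun _ h1 h2 => xi_fix ha he (by linarith) (by linarith)⟩

/-- conjugation -/
theorem xi_conj {a a' : ℝ} {e e' : ℤ} (ha : Dy a) (ha' : Dy a') (he : e ≤ 0) (he' : e' ≤ 0)
    {g : Equiv.Perm ℝ} (hg : g ∈ TP)
    (hga : ∀ r, 0 ≤ r → r ≤ 1 → g (a + 2 ^ e * r) = a' + 2 ^ e' * r) :
    g * xi a e * g⁻¹ = xi a' e' := by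
  have hs := xi_spec ha he
  have hp := zpow2_pos e
  have hp' := zpow2_pos e'
  refine IsXi.unique (a := a') (e := e') ⟨TP.mul_mem (TP.mul_mem hg hs.1) (TP.inv_mem hg),
    fun r r0 r1 => ?_⟩ (xi_spec ha' he')
  rcases le_total r 1 with hr | hr
  · have e1 : g⁻¹ (a' + 2 ^ e' * r) = a + 2 ^ e * r := by
      rw [Equiv.Perm.inv_eq_iff_eq, hga r r0 hr]
    have h1 := zpow2_le_one he
    rw [Equiv.Perm.mul_apply, Equiv.Perm.mul_apply, e1, hs.2 r r0 (by nlinarith),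
      hga _ (x0_nonneg r0) (x0_le_one hr)]
  · have g0 : g a = a' := by have := hga 0 le_rfl zero_le_one; simpa using this
    have g1 : g (a + 2 ^ e) = a' + 2 ^ e' := by
      have := hga 1 zero_le_one le_rfl; simpa using this
    have gm := hg.1.1
    have b1 : a + 2 ^ e ≤ g⁻¹ (a' + 2 ^ e' * r) := by
      rw [← gm.le_iff_le, ai, g1]; nlinarith
    have b2 : g⁻¹ (a' + 2 ^ e' * r) ≤ a + 1 := by
      rw [← gm.le_iff_le, ai, hg.2, g0]; linarith
    rw [Equiv.Perm.mul_apply, Equiv.Perm.mul_apply, xi_fix ha he b1 b2, ai, x0_d hr]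

theorem two_zpow_sub (e : ℤ) : (2 : ℝ) ^ (e - 1) = 2 ^ e / 2 := by
  rw [zpow_sub₀ (by norm_num)]; simp

theorem Dy.add_zpow {a : ℝ} (ha : Dy a) (e : ℤ) : Dy (a + 2 ^ e) := ha.add (Dy.two_zpow e)

/-- the group generated by the two standard generators on `[a, a + 2 ^ e]` -/
noncomputable def Gam (a : ℝ) (e : ℤ) : Subgroup (Equiv.Perm ℝ) :=
  Subgroup.closure {xi a e, xi (a + 2 ^ (e - 1)) (e - 1)}

theorem xi_mem_Gam (a : ℝ) (e : ℤ) : xi a e ∈ Gam a e := Subgroup.subset_closure (by simp)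
theorem xi_mem_Gam' (a : ℝ) (e : ℤ) : xi (a + 2 ^ (e - 1)) (e - 1) ∈ Gam a e :=
  Subgroup.subset_closure (by simp)

theorem Gam_right {a : ℝ} {e : ℤ} (ha : Dy a) (he : e ≤ 0) :
    Gam (a + 2 ^ (e - 1)) (e - 1) ≤ Gam a e := by
  have hp := zpow2_pos e
  have h1 := zpow2_le_one he
  rw [Gam, Subgroup.closure_le]
  rintro x (rfl | rfl)
  · exact xi_mem_Gam' a e
  · have := xi_conj (a := a + 2 ^ (e - 1)) (a' := a + 2 ^ (e - 1) + 2 ^ (e - 1 - 1)) (e := e - 1)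
      (e' := e - 1 - 1) (ha.add_zpow _) ((ha.add_zpow _).add_zpow _) (by omega) (by omega)
      (g := xi a e) (xi_spec ha he).1 (fun r r0 r1 => by
        have e1 : a + 2 ^ (e - 1) + 2 ^ (e - 1) * r = a + 2 ^ e * ((1 + r) / 2) := by
          rw [two_zpow_sub]; ring
        rw [e1, (xi_spec ha he).2 _ (by linarith) (by nlinarith), x0_c (by linarith) (by linarith),
          two_zpow_sub (e - 1), two_zpow_sub]
        ring)
    change xi (a + 2 ^ (e - 1) + 2 ^ (e - 1 - 1)) (e - 1 - 1) ∈ Gam a e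
    rw [← this]
    exact Subgroup.mul_mem _ (Subgroup.mul_mem _ (xi_mem_Gam a e) (xi_mem_Gam' a e))
      (Subgroup.inv_mem _ (xi_mem_Gam a e))

theorem Gam_le_rist {a : ℝ} {e : ℤ} (ha : Dy a) (he : e ≤ 0) : Gam a e ≤ rist a (a + 2 ^ e) := by
  have hp := zpow2_pos e
  rw [Gam, Subgroup.closure_le]
  rintro x (rfl | rfl)
  · exact xi_mem_rist ha he le_rfl le_rfl
  · refine xi_mem_rist (ha.add_zpow _) (by omega) ?_ ?_ <;> rw [two_zpow_sub] <;> linarith

theorem rist_fix_left {c d : ℝ} {f : Equiv.Perm ℝ} (hf : f ∈ rist c d) {t : ℝ} (h : d - 1 ≤ t)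
    (h' : t ≤ c) : f t = t := by
  have := hf.2 (t + 1) (by linarith) (by linarith)
  rw [hf.1.2] at this
  linarith

/-- right comb -/
def comb : ℕ → BT
  | 0 => .leaf
  | k + 1 => .node .leaf (comb k)

/-- normal form of a tree -/
def NF (t : BT) : Prop := ∃ k, t.n = k + 1 ∧ ∀ a e, Dy a → e ≤ 0 → ∃ γ ∈ Gam a e,
  ∀ r, 0 ≤ r → r ≤ 1 → (comb k).c ((γ (a + 2 ^ e * r) - a) / 2 ^ e) = t.c r

theorem NF.leaf_node {s : BT} (hs : NF s) : NF (.node .leaf s) := by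
  obtain ⟨k, hk, H⟩ := hs
  refine ⟨k + 1, by simp only [BT.n, hk]; ring, fun a e ha he => ?_⟩
  obtain ⟨γ, hγ, h⟩ := H (a + 2 ^ (e - 1)) (e - 1) (ha.add_zpow _) (by omega)
  refine ⟨γ, Gam_right ha he hγ, fun r r0 r1 => ?_⟩
  have hp := zpow2_pos e
  have hpe := zpow2_le_one he
  have hγ' := Gam_le_rist (ha.add_zpow (e - 1)) (by omega : e - 1 ≤ 0) hγ
  rcases le_total r (1 / 2) with hr | hr
  · have e1 : γ (a + 2 ^ e * r) = a + 2 ^ e * r := by
      apply rist_fix_left hγ'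
      · rw [two_zpow_sub]; nlinarith
      · rw [two_zpow_sub]; nlinarith
    have e2 : (a + 2 ^ e * r - a) / 2 ^ e = r := by field_simp; ring
    rw [e1, e2, comb, BT.c_left _ _ hr, BT.c_left _ _ hr]
  · have h1 := h (2 * r - 1) (by linarith) (by linarith)
    have e1 : a + 2 ^ (e - 1) + 2 ^ (e - 1) * (2 * r - 1) = a + 2 ^ e * r := by
      rw [two_zpow_sub]; ring
    rw [e1] at h1
    have hmono := hγ'.1.1.1
    have e3 : γ (a + 2 ^ (e - 1)) = a + 2 ^ (e - 1) := by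
      apply rist_fix_left hγ'
      · rw [two_zpow_sub]; nlinarith
      · exact le_rfl
    have e4 : a + 2 ^ (e - 1) ≤ γ (a + 2 ^ e * r) := by
      rw [← e3]; apply hmono.monotone
      rw [two_zpow_sub]; nlinarith
    rw [comb, BT.c_right _ _ hr, BT.c_right _ _ (by
      rw [le_div_iff₀ hp]; rw [two_zpow_sub] at e4; linarith), ← h1]
    congr 2
    rw [two_zpow_sub]
    field_simp
    ring

theorem NF.rotate {l1 l2 s : BT} (h : NF (.node l1 (.node l2 s))) :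
    NF (.node (.node l1 l2) s) := by
  obtain ⟨k, hk, H⟩ := h
  refine ⟨k, by simp only [BT.n] at hk ⊢; omega, fun a e ha he => ?_⟩
  obtain ⟨γ, hγ, h⟩ := H a e ha he
  refine ⟨γ * xi a e, Subgroup.mul_mem _ hγ (xi_mem_Gam a e), fun r r0 r1 => ?_⟩
  have hp := zpow2_pos e
  have hpe := zpow2_le_one he
  rw [Equiv.Perm.mul_apply, (xi_spec ha he).2 r r0 (by nlinarith),
    h _ (x0_nonneg r0) (x0_le_one r1)]
  rcases le_total r (1 / 4) with h1 | h1
  · rw [x0_a r0 h1, BT.c_left _ _ (by linarith), BT.c_left _ _ (by linarith),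
      BT.c_left _ _ (by linarith)]
  rcases le_total r (1 / 2) with h2 | h2
  · rw [x0_b h1 h2, BT.c_right _ _ (by linarith), BT.c_left _ _ (by linarith),
      BT.c_left _ _ (by linarith), BT.c_right _ _ (by linarith)]
    congr 2; ring
  · rw [x0_c h2 r1, BT.c_right _ _ (by linarith), BT.c_right _ _ (by linarith),
      BT.c_right _ _ (by linarith)]
    simp only [BT.n]; push_cast
    have : 2 * (2 * ((r + 1) / 2) - 1) - 1 = 2 * r - 1 := by ring
    rw [this]; ring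

theorem NF.node_of (l : BT) : ∀ s, NF s → NF (.node l s) := by
  induction l with
  | leaf => exact fun s hs => hs.leaf_node
  | node l1 l2 h1 h2 => exact fun s hs => (h1 _ (h2 s hs)).rotate

theorem NF.all (t : BT) : NF t := by
  induction t with
  | leaf =>
    refine ⟨0, rfl, fun a e ha he => ⟨1, Subgroup.one_mem _, fun r r0 r1 => ?_⟩⟩
    have hp := zpow2_pos e
    simp only [comb, BT.c, Equiv.Perm.coe_one, id]
    field_simp; ring
  | node l r h1 h2 => exact NF.node_of l r h2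

theorem rist_le_Gam {a : ℝ} {e : ℤ} (ha : Dy a) (he : e ≤ 0) : rist a (a + 2 ^ e) ≤ Gam a e := by
  intro f hf
  have hp := zpow2_pos e
  have hpe := zpow2_le_one he
  have hA := aff_mem e ha
  set h := (aff e a)⁻¹ * f * aff e a with hh
  have hhP : h ∈ PP := PP.mul_mem (PP.mul_mem (PP.inv_mem hA) hf.1.1) hA
  have hloc : ∀ r, f (a + 2 ^ e * r) = a + 2 ^ e * h r := by
    intro r
    have : aff e a (h r) = f (aff e a r) := by
      rw [hh, Equiv.Perm.mul_apply, Equiv.Perm.mul_apply, ai]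
    rw [aff_apply, aff_apply] at this
    rw [add_comm a, ← this]; ring
  have fa : f a = a := rist_fix_left hf (by linarith) le_rfl
  have fe : f (a + 2 ^ e) = a + 2 ^ e := hf.2 _ le_rfl (by linarith)
  have h0 : h 0 = 0 := by
    have := hloc 0
    rw [mul_zero, add_zero, fa] at this
    have : 2 ^ e * h 0 = 0 := by linarith
    exact (mul_eq_zero.1 this).resolve_left hp.ne'
  have h1 : h 1 = 1 := by
    have := hloc 1
    rw [mul_one, fe] at this
    have : 2 ^ e * h 1 = 2 ^ e * 1 := by linarith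
    exact mul_left_cancel₀ hp.ne' this
  obtain ⟨M, hM⟩ := exists_mesh hhP h0 h1
  have hinv := inv_strictMono hhP.1
  have hi0 : h⁻¹ 0 = 0 := by rw [Equiv.Perm.inv_eq_iff_eq, h0]
  have hi1 : h⁻¹ 1 = 1 := by rw [Equiv.Perm.inv_eq_iff_eq, h1]
  have hpM : (0 : ℝ) < 2 ^ M := by positivity
  obtain ⟨t2, n2, c2⟩ := exists_tree (2 ^ M) (fun r => 2 ^ M * h⁻¹ r)
    (fun x _ y _ hxy => by
      have := hinv hxy
      change 2 ^ M * h⁻¹ x < 2 ^ M * h⁻¹ y
      nlinarith)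
    (by
      change 2 ^ M * h⁻¹ 0 = 0
      rw [hi0, mul_zero])
    (by
      change 2 ^ M * h⁻¹ 1 = _
      rw [hi1, mul_one]; push_cast; rfl)
    (by
      intro j hj
      obtain ⟨i, m, him, H⟩ := hM j hj
      refine ⟨i, m, him, fun r hr1 hr2 => ?_⟩
      have hpm : (0 : ℝ) < 2 ^ m := by positivity
      have e1 : (2 : ℝ) ^ M * ((j + (2 ^ m * r - i)) / 2 ^ M) = j + (2 ^ m * r - i) := by
        field_simp
      have e2 := H ((j + (2 ^ m * r - i)) / 2 ^ M) (by rw [e1]; linarith) (by rw [e1]; linarith)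
      rw [e1] at e2
      have e3 : h ((j + (2 ^ m * r - i)) / 2 ^ M) = r := by
        have : h ((j + (2 ^ m * r - i)) / 2 ^ M) * 2 ^ m = r * 2 ^ m := by rw [e2]; ring
        exact mul_right_cancel₀ hpm.ne' this
      have e4 : h⁻¹ r = (j + (2 ^ m * r - i)) / 2 ^ M := by
        rw [Equiv.Perm.inv_eq_iff_eq, e3]
      change 2 ^ M * h⁻¹ r = _
      rw [e4, e1])
  obtain ⟨k, hk, H⟩ := NF.all t2
  obtain ⟨k', hk', H'⟩ := NF.all (BT.U M)
  have hkk : k' = k := by rw [BT.U_n] at hk'; omega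
  subst hkk
  obtain ⟨γ, hγ, g1⟩ := H a e ha he
  obtain ⟨γ', hγ', g1'⟩ := H' a e ha he
  have key : γ * f = γ' := by
    have r1 := Gam_le_rist ha he hγ
    have r1' := Gam_le_rist ha he hγ'
    refine TP.ext (TP.mul_mem r1.1 hf.1) r1'.1 a fun t t0 t1 => ?_
    rcases le_total t (a + 2 ^ e) with ht | ht
    · obtain ⟨r, r0, -, rfl⟩ := coord a e t0 t1
      have r2 : r ≤ 1 := by
        by_contra hcon
        rw [not_le] at hcon
        nlinarith
      have q0 : 0 ≤ h r := by rw [← h0]; exact hhP.1.monotone r0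
      have q1 : h r ≤ 1 := by
        have := hhP.1.monotone r2
        rwa [h1] at this
      have w1 := g1 (h r) q0 q1
      rw [c2 (h r) ⟨q0, q1⟩] at w1
      have w2 := g1' r r0 r2
      rw [BT.U_c] at w2
      change _ = 2 ^ M * h⁻¹ (h r) at w1
      rw [ia, ← w2] at w1
      have w3 := (comb k').c_strictMono.injective w1
      rw [div_left_inj' hp.ne'] at w3
      rw [Equiv.Perm.mul_apply, hloc]
      linarith
    · rw [Equiv.Perm.mul_apply, hf.2 t ht t1, r1.2 t ht t1, r1'.2 t ht t1]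
  have : f = γ⁻¹ * γ' := by rw [← key]; group
  rw [this]
  exact Subgroup.mul_mem _ (Subgroup.inv_mem _ hγ) hγ'

/-- the pentagon relation -/
theorem pentagon {a : ℝ} {e : ℤ} (ha : Dy a) (he : e ≤ 0) :
    xi a e * xi a e = xi (a + 2 ^ (e - 1)) (e - 1) * xi a e * xi a (e - 1) := by
  have hp := zpow2_pos e
  have hpe := zpow2_le_one he
  have S := xi_spec ha he
  have SL := xi_spec ha (show e - 1 ≤ 0 by omega)
  have SR := xi_spec (ha.add_zpow (e - 1)) (show e - 1 ≤ 0 by omega)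
  refine TP.ext (TP.mul_mem S.1 S.1) (TP.mul_mem (TP.mul_mem SR.1 S.1) SL.1) a fun t t0 t1 => ?_
  obtain ⟨r, r0, r1, rfl⟩ := coord a e t0 t1
  simp only [Equiv.Perm.mul_apply]
  -- evaluation lemmas
  have evL : ∀ r, 0 ≤ r → r ≤ 1 / 2 → xi a (e - 1) (a + 2 ^ e * r) = a + 2 ^ e * (x0 (2 * r) / 2) := by
    intro r h0 h1
    have h2 := SL.2 (2 * r) (by linarith) (by rw [two_zpow_sub]; nlinarith)
    rw [two_zpow_sub] at h2
    have e1 : a + 2 ^ e * r = a + 2 ^ e / 2 * (2 * r) := by ring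
    rw [e1, h2]; ring
  have evLr : ∀ r, 1 / 2 ≤ r → 2 ^ e * r ≤ 1 → xi a (e - 1) (a + 2 ^ e * r) = a + 2 ^ e * r := by
    intro r h0 h1
    apply xi_fix ha (by omega)
    · rw [two_zpow_sub]; nlinarith
    · linarith
  have evR : ∀ r, 1 / 2 ≤ r → r ≤ 1 →
      xi (a + 2 ^ (e - 1)) (e - 1) (a + 2 ^ e * r) = a + 2 ^ e * (1 / 2 + x0 (2 * r - 1) / 2) := by
    intro r h0 h1
    have h2 := SR.2 (2 * r - 1) (by linarith) (by rw [two_zpow_sub]; nlinarith)
    rw [two_zpow_sub] at h2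
    rw [two_zpow_sub]
    have e1 : a + 2 ^ e * r = a + 2 ^ e / 2 + 2 ^ e / 2 * (2 * r - 1) := by ring
    rw [e1, h2]; ring
  have evRl : ∀ r, 0 ≤ r → r ≤ 1 / 2 →
      xi (a + 2 ^ (e - 1)) (e - 1) (a + 2 ^ e * r) = a + 2 ^ e * r := by
    intro r h0 h1
    apply rist_fix_left (xi_mem_rist (ha.add_zpow (e - 1)) (by omega : e - 1 ≤ 0) le_rfl le_rfl)
    · rw [two_zpow_sub]; nlinarith
    · rw [two_zpow_sub]; nlinarith
  have evRr : ∀ r, 1 ≤ r → 2 ^ e * r ≤ 1 →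
      xi (a + 2 ^ (e - 1)) (e - 1) (a + 2 ^ e * r) = a + 2 ^ e * r := by
    intro r h0 h1
    apply xi_fix (ha.add_zpow (e - 1)) (by omega)
    · rw [two_zpow_sub]; nlinarith
    · rw [two_zpow_sub]; nlinarith
  have ev : ∀ r, 0 ≤ r → r ≤ 1 → xi a e (a + 2 ^ e * r) = a + 2 ^ e * x0 r := by
    intro r h0 h1
    exact S.2 r h0 (by nlinarith)
  have ev' : ∀ r, 1 ≤ r → 2 ^ e * r ≤ 1 → xi a e (a + 2 ^ e * r) = a + 2 ^ e * r := by
    intro r h0 h1
    rw [S.2 r (by linarith) h1, x0_d h0]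
  rcases le_total r (1 / 8) with h1 | h1
  · rw [ev r r0 (by linarith), x0_a r0 (by linarith), ev _ (by linarith) (by linarith),
      x0_a (by linarith) (by linarith), evL r r0 (by linarith), x0_a (by linarith) (by linarith),
      ev _ (by linarith) (by linarith), x0_a (by linarith) (by linarith),
      evRl _ (by linarith) (by linarith)]
    ring
  rcases le_total r (1 / 4) with h2 | h2
  · rw [ev r r0 (by linarith), x0_a r0 (by linarith), ev _ (by linarith) (by linarith),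
      x0_b (by linarith) (by linarith), evL r r0 (by linarith), x0_b (by linarith) (by linarith),
      ev _ (by linarith) (by linarith), x0_b (by linarith) (by linarith),
      evR _ (by linarith) (by linarith), x0_a (by linarith) (by linarith)]
    ring
  rcases le_total r (1 / 2) with h3 | h3
  · rw [ev r r0 (by linarith), x0_b (by linarith) (by linarith), ev _ (by linarith) (by linarith),
      x0_c (by linarith) (by linarith), evL r r0 (by linarith), x0_c (by linarith) (by linarith),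
      ev _ (by linarith) (by linarith), x0_b (by linarith) (by linarith),
      evR _ (by linarith) (by linarith), x0_b (by linarith) (by linarith)]
    ring
  rcases le_total r 1 with h4 | h4
  · rw [ev r r0 (by linarith), x0_c (by linarith) (by linarith), ev _ (by linarith) (by linarith),
      x0_c (by linarith) (by linarith), evLr r h3 (by nlinarith),
      ev _ (by linarith) (by linarith), x0_c (by linarith) (by linarith),
      evR _ (by linarith) (by linarith), x0_c (by linarith) (by linarith)]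
    ring
  · rw [ev' r h4 r1, ev' r h4 r1, evLr r h3 r1, ev' r h4 r1, evRr r h4 r1]

/-- affine transitivity inside `[c,d]` -/
theorem exists_rist_aff {a a' c d : ℝ} {e e' : ℤ} (ha : Dy a) (ha' : Dy a') (hc : Dy c) (hd : Dy d)
    (hd1 : d ≤ c + 1) (h1 : c < a) (h2 : a + 2 ^ e < d) (h1' : c < a') (h2' : a' + 2 ^ e' < d) :
    ∃ g ∈ rist c d, ∀ r, 0 ≤ r → r ≤ 1 → g (a + 2 ^ e * r) = a' + 2 ^ e' * r := by
  have hp := zpow2_pos e
  have hp' := zpow2_pos e'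
  have hpp := zpow2_pos (e' - e)
  have e0 : (2 : ℝ) ^ (e' - e) * 2 ^ e = 2 ^ e' := by
    rw [← zpow_add₀ (by norm_num)]; congr 1; ring
  have hdy : Dy (a' - 2 ^ (e' - e) * a) := ha'.sub ((Dy.zpow_mul_iff _).2 ha)
  have ev : ∀ r, aff (e' - e) (a' - 2 ^ (e' - e) * a) (a + 2 ^ e * r) = a' + 2 ^ e' * r := by
    intro r
    rw [aff_apply, ← e0]; ring
  have ev0 := ev 0
  have ev1 := ev 1
  simp only [mul_zero, add_zero] at ev0
  simp only [mul_one] at ev1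
  obtain ⟨v, hv, v1, v2⟩ := exists_ext (aff_mem (e' - e) hdy) ha (ha.add_zpow e) hc hd h1
    (by linarith) h2 hd1 (by rw [ev0]; exact h1') (by rw [ev1]; exact h2')
  refine ⟨v, ⟨hv, v2⟩, fun r r0 r1 => ?_⟩
  rw [v1 _ (by nlinarith) (by nlinarith), ev]

theorem xi_mem_comm {a c d : ℝ} {e : ℤ} (ha : Dy a) (hc : Dy c) (hd : Dy d) (he : e ≤ 0)
    (hd1 : d ≤ c + 1) (h1 : c < a) (h2 : a + 2 ^ e < d) : xi a e ∈ ⁅rist c d, rist c d⁆ := by
  have hp := zpow2_pos e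
  obtain ⟨g1, hg1, G1⟩ := exists_rist_aff (a := a) (a' := a + 2 ^ (e - 1)) (e := e) (e' := e - 1)
    ha (ha.add_zpow _) hc hd hd1 h1 h2 (by rw [two_zpow_sub]; linarith)
    (by rw [two_zpow_sub]; linarith)
  obtain ⟨g2, hg2, G2⟩ := exists_rist_aff (a := a) (a' := a) (e := e) (e' := e - 1)
    ha ha hc hd hd1 h1 h2 (by linarith) (by rw [two_zpow_sub]; linarith)
  have c1 := xi_conj ha (ha.add_zpow (e - 1)) he (by omega) hg1.1 G1
  have c2 := xi_conj ha ha he (by omega) hg2.1 G2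
  have hx : xi a e ∈ rist c d := xi_mem_rist ha he h1.le h2.le
  have pent := pentagon ha he
  rw [← c1, ← c2] at pent
  set x := xi a e
  set C := ⁅rist c d, rist c d⁆
  have u1 : ⁅g1, x⁆ ∈ C := Subgroup.commutator_mem_commutator hg1 hx
  have u2 : ⁅g2, x⁆ ∈ C := Subgroup.commutator_mem_commutator hg2 hx
  have u3 : ⁅x * x, ⁅g1, x⁆⁆ ∈ C := by
    apply Subgroup.commutator_mem_commutator (Subgroup.mul_mem _ hx hx)
    rw [commutatorElement_def]
    exact Subgroup.mul_mem _ (Subgroup.mul_mem _ (Subgroup.mul_mem _ hg1 hx)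
      (Subgroup.inv_mem _ hg1)) (Subgroup.inv_mem _ hx)
  have u3' : ⁅(x * x)⁻¹, ⁅g1, x⁆⁆ ∈ C := by
    apply Subgroup.commutator_mem_commutator (Subgroup.inv_mem _ (Subgroup.mul_mem _ hx hx))
    rw [commutatorElement_def]
    exact Subgroup.mul_mem _ (Subgroup.mul_mem _ (Subgroup.mul_mem _ hg1 hx)
      (Subgroup.inv_mem _ hg1)) (Subgroup.inv_mem _ hx)
  -- x * x = ⁅g1,x⁆ * (x * x) * ⁅g2,x⁆ * x
  have key : x * x = ⁅g1, x⁆ * (x * x) * ⁅g2, x⁆ * x := by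
    rw [commutatorElement_def, commutatorElement_def]
    conv_lhs => rw [pent]
    group
  have key2 : x = ⁅g2, x⁆⁻¹ * (⁅(x * x)⁻¹, ⁅g1, x⁆⁆ * ⁅g1, x⁆)⁻¹ := by
    have : ⁅(x * x)⁻¹, ⁅g1, x⁆⁆ * ⁅g1, x⁆ = (x * x)⁻¹ * ⁅g1, x⁆ * (x * x) := by
      rw [commutatorElement_def (x * x)⁻¹]; group
    rw [this]
    have h3 : (x * x)⁻¹ * ⁅g1, x⁆ * (x * x) * (⁅g2, x⁆ * x) = 1 := by
      have : (x * x)⁻¹ * ⁅g1, x⁆ * (x * x) * (⁅g2, x⁆ * x)
        = (x * x)⁻¹ * (⁅g1, x⁆ * (x * x) * ⁅g2, x⁆ * x) := by group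
      rw [this, ← key]; group
    have h4 : (x * x)⁻¹ * ⁅g1, x⁆ * (x * x) = (⁅g2, x⁆ * x)⁻¹ := mul_eq_one_iff_eq_inv.1 h3
    rw [h4, inv_inv]; group
  rw [key2]
  exact Subgroup.mul_mem _ (Subgroup.inv_mem _ u2) (Subgroup.inv_mem _ (Subgroup.mul_mem _ u3' u1))

theorem rist_le_comm {a c d : ℝ} {e : ℤ} (ha : Dy a) (hc : Dy c) (hd : Dy d) (he : e ≤ 0)
    (hd1 : d ≤ c + 1) (h1 : c < a) (h2 : a + 2 ^ e < d) :
    rist a (a + 2 ^ e) ≤ ⁅rist c d, rist c d⁆ := by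
  have hp := zpow2_pos e
  refine (rist_le_Gam ha he).trans ?_
  rw [Gam, Subgroup.closure_le]
  rintro x (rfl | rfl)
  · exact xi_mem_comm ha hc hd he hd1 h1 h2
  · refine xi_mem_comm (ha.add_zpow _) hc hd (by omega) hd1 ?_ ?_ <;> rw [two_zpow_sub] <;> linarith

end Pool.Agent.MP_317377_al
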