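import Pool.Agent.MP_317377_al.Basic

/-! Gluing and periodising dyadic piecewise linear maps. -/

namespace Pool.Agent.MP_317377_al

open Set Filter

theorem RS.congr {f g : ℝ → ℝ} {t : ℝ} {k : ℤ} (h : RS f t k) {ε : ℝ} (hε : 0 < ε)
    (hfg : ∀ s, t ≤ s → s ≤ t + ε → g s = f s) : RS g t k := by
  obtain ⟨δ, hδ, h⟩ := h
  refine ⟨min δ ε, lt_min hδ hε, fun s hs hs' => ?_⟩
  have h1 := min_le_left δ ε
  have h2 := min_le_right δ ε
  rw [hfg s hs (by linarith), hfg t le_rfl (by linarith), h s hs (by linarith)]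

theorem LS.congr {f g : ℝ → ℝ} {t : ℝ} {k : ℤ} (h : LS f t k) {ε : ℝ} (hε : 0 < ε)
    (hfg : ∀ s, t - ε ≤ s → s ≤ t → g s = f s) : LS g t k := by
  obtain ⟨δ, hδ, h⟩ := h
  refine ⟨min δ ε, lt_min hδ hε, fun s hs hs' => ?_⟩
  have h1 := min_le_left δ ε
  have h2 := min_le_right δ ε
  rw [hfg s (by linarith) hs', hfg t (by linarith) le_rfl, h s (by linarith) hs']

theorem RS.shift {f : ℝ → ℝ} {t : ℝ} {k : ℤ} (n : ℝ) (h : RS f (t - n) k) :
    RS (fun s => f (s - n) + n) t k := by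
  obtain ⟨δ, hδ, h⟩ := h
  refine ⟨δ, hδ, fun s hs hs' => ?_⟩
  change f (s - n) + n = f (t - n) + n + 2 ^ k * (s - t)
  rw [h (s - n) (by linarith) (by linarith)]
  ring

theorem LS.shift {f : ℝ → ℝ} {t : ℝ} {k : ℤ} (n : ℝ) (h : LS f (t - n) k) :
    LS (fun s => f (s - n) + n) t k := by
  obtain ⟨δ, hδ, h⟩ := h
  refine ⟨δ, hδ, fun s hs hs' => ?_⟩
  change f (s - n) + n = f (t - n) + n + 2 ^ k * (s - t)
  rw [h (s - n) (by linarith) (by linarith)]
  ring

theorem Dy.add_int_iff {a : ℝ} (n : ℤ) : Dy (a + n) ↔ Dy a :=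
  ⟨fun h => by simpa using h.sub (Dy.intCast n), fun h => h.add (Dy.intCast n)⟩

theorem Dy.sub_int_iff {a : ℝ} (n : ℤ) : Dy (a - n) ↔ Dy a :=
  ⟨fun h => by simpa using h.add (Dy.intCast n), fun h => h.sub (Dy.intCast n)⟩

theorem inv_strictMono {f : Equiv.Perm ℝ} (hf : StrictMono f) : StrictMono (f⁻¹ : Equiv.Perm ℝ) := by
  intro a b hab
  by_contra hcon
  rw [not_lt] at hcon
  have := hf.monotone hcon
  simp only [ai] at this
  linarith

/-- the glued permutation -/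
noncomputable def glue (a : ℝ) (f g : Equiv.Perm ℝ) (hf : StrictMono f) (hg : StrictMono g)
    (h : f a = g a) : Equiv.Perm ℝ where
  toFun t := if t ≤ a then f t else g t
  invFun u := if u ≤ f a then f⁻¹ u else g⁻¹ u
  left_inv t := by
    by_cases ht : t ≤ a
    · simp only [ht, if_true, hf.le_iff_le, ia]
    · have h1 : ¬ g t ≤ f a := by rw [h, hg.le_iff_le]; exact ht
      simp only [ht, if_false, h1, ia]
  right_inv u := by
    by_cases hu : u ≤ f a
    · have h1 : f⁻¹ u ≤ a := by rw [← hf.le_iff_le, ai]; exact hu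
      simp only [hu, if_true, h1, ai]
    · have h1 : ¬ g⁻¹ u ≤ a := by rw [← hg.le_iff_le, ai, ← h]; exact hu
      simp only [hu, if_false, h1, ai]

theorem exists_glue {f g : Equiv.Perm ℝ} (hf : f ∈ PP) (hg : g ∈ PP) {a : ℝ} (ha : Dy a)
    (h : f a = g a) : ∃ F ∈ PP, (∀ t ≤ a, F t = f t) ∧ (∀ t, a ≤ t → F t = g t) := by
  have e1 : ∀ t ≤ a, glue a f g hf.1 hg.1 h t = f t := fun t ht => if_pos ht
  have e2 : ∀ t, a ≤ t → glue a f g hf.1 hg.1 h t = g t := fun t ht => by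
    rcases ht.lt_or_eq with ht | rfl
    · exact if_neg (not_le.2 ht)
    · rw [e1 _ le_rfl, h]
  refine ⟨glue a f g hf.1 hg.1 h, ⟨?_, ?_, ?_⟩, e1, e2⟩
  · intro s t hst
    rcases le_total t a with ht | ht
    · rw [e1 t ht, e1 s (by linarith)]; exact hf.1 hst
    · rcases le_total a s with hs | hs
      · rw [e2 t ht, e2 s hs]; exact hg.1 hst
      · rw [e2 t ht, e1 s hs]
        rcases hs.lt_or_eq with hs | rfl
        · calc f s < f a := hf.1 hs
            _ = g a := h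
            _ ≤ g t := hg.1.monotone ht
        · rw [h]; exact hg.1 hst
  · intro s
    rcases le_total s a with hs | hs
    · rw [e1 s hs]; exact hf.2.dy s
    · rw [e2 s hs]; exact hg.2.dy s
  · intro t
    obtain ⟨k, l, h1, h2, h3⟩ := hf.2.slope t
    obtain ⟨k', l', h1', h2', h3'⟩ := hg.2.slope t
    rcases lt_trichotomy t a with ht | rfl | ht
    · exact ⟨k, l, h1.congr (ε := a - t) (by linarith) fun s _ hs => e1 s (by linarith),
        h2.congr one_pos fun s _ hs => e1 s (by linarith), h3⟩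
    · exact ⟨k', l, h1'.congr one_pos fun s hs _ => e2 s hs,
        h2.congr one_pos fun s _ hs => e1 s hs, fun hn => absurd ha hn⟩
    · exact ⟨k', l', h1'.congr one_pos fun s hs _ => e2 s (by linarith),
        h2'.congr (ε := t - a) (by linarith) fun s hs _ => e2 s (by linarith), h3'⟩

/-- the periodic extension of a permutation from a fundamental domain -/
noncomputable def per (q : ℝ) (F : Equiv.Perm ℝ) (hF : StrictMono F) (h : F (q + 1) = F q + 1) :
    Equiv.Perm ℝ where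
  toFun t := F (t - ⌊t - q⌋) + ⌊t - q⌋
  invFun u := F⁻¹ (u - ⌊u - F q⌋) + ⌊u - F q⌋
  left_inv t := by
    have h1 := Int.floor_le (t - q)
    have h2 := Int.lt_floor_add_one (t - q)
    have h3 : F q ≤ F (t - ⌊t - q⌋) := hF.monotone (by linarith)
    have h4 : F (t - ⌊t - q⌋) < F q + 1 := by rw [← h]; exact hF (by linarith)
    have h5 : ⌊F (t - ⌊t - q⌋) + ⌊t - q⌋ - F q⌋ = ⌊t - q⌋ := by
      rw [Int.floor_eq_iff]; constructor <;> linarith
    simp only [h5, add_sub_cancel_right, ia, sub_add_cancel]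
  right_inv u := by
    have h1 := Int.floor_le (u - F q)
    have h2 := Int.lt_floor_add_one (u - F q)
    have h3 : q ≤ F⁻¹ (u - ⌊u - F q⌋) := by
      rw [← hF.le_iff_le, ai]; linarith
    have h4 : F⁻¹ (u - ⌊u - F q⌋) < q + 1 := by
      rw [← hF.lt_iff_lt, ai, h]; linarith
    have h5 : ⌊F⁻¹ (u - ⌊u - F q⌋) + ⌊u - F q⌋ - q⌋ = ⌊u - F q⌋ := by
      rw [Int.floor_eq_iff]; constructor <;> linarith
    simp only [h5, add_sub_cancel_right, ai, sub_add_cancel]

theorem exists_per {F : Equiv.Perm ℝ} (hF : F ∈ PP) {q : ℝ} (hq : Dy q)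
    (h : F (q + 1) = F q + 1) : ∃ P ∈ TP, ∀ t, q ≤ t → t ≤ q + 1 → P t = F t := by
  set P := per q F hF.1 h with hP
  have e0 : ∀ t, P t = F (t - ⌊t - q⌋) + ⌊t - q⌋ := fun t => rfl
  have e : ∀ (n : ℤ) t, q + n ≤ t → t ≤ q + n + 1 → P t = F (t - n) + n := by
    intro n t h1 h2
    rcases h2.lt_or_eq with h2 | h2
    · have : ⌊t - q⌋ = n := by rw [Int.floor_eq_iff]; constructor <;> linarith
      rw [e0, this]
    · have : ⌊t - q⌋ = n + 1 := by
        rw [Int.floor_eq_iff]; push_cast; constructor <;> linarith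
      rw [e0, this]; push_cast
      have e1 : t - (n + 1) = q := by linarith
      have e2 : t - n = q + 1 := by linarith
      rw [e1, e2, h]; ring
  have hfl : ∀ t, q + ⌊t - q⌋ ≤ t ∧ t < q + ⌊t - q⌋ + 1 := fun t => by
    have h1 := Int.floor_le (t - q)
    have h2 := Int.lt_floor_add_one (t - q)
    constructor <;> linarith
  have hmono : StrictMono P := by
    intro s t hst
    obtain ⟨s1, s2⟩ := hfl s
    obtain ⟨t1, t2⟩ := hfl t
    rw [e0, e0]
    have hle : ⌊s - q⌋ ≤ ⌊t - q⌋ := Int.floor_mono (by linarith)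
    rcases hle.lt_or_eq with hlt | heq
    · have h1 : F (s - ⌊s - q⌋) < F q + 1 := by rw [← h]; exact hF.1 (by linarith)
      have h2 : F q ≤ F (t - ⌊t - q⌋) := hF.1.monotone (by linarith)
      have h3 : (⌊s - q⌋ : ℝ) + 1 ≤ ⌊t - q⌋ := by exact_mod_cast hlt
      linarith
    · rw [heq]
      have := hF.1 (show s - ⌊t - q⌋ < t - ⌊t - q⌋ by linarith)
      linarith
  refine ⟨P, ⟨⟨hmono, ?_, ?_⟩, ?_⟩, fun t h1 h2 => by
    simpa using e 0 t (by simpa using h1) (by simpa using h2)⟩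
  · intro s
    rw [e0, Dy.add_int_iff, hF.2.dy, Dy.sub_int_iff]
  · intro t
    obtain ⟨t1, t2⟩ := hfl t
    set n := ⌊t - q⌋
    obtain ⟨k, l, h1, h2, h3⟩ := hF.2.slope (t - n)
    have hR : RS P t k := (h1.shift (n : ℝ)).congr (ε := q + n + 1 - t) (by linarith)
      fun s hs hs' => e n s (by linarith) (by linarith)
    rcases t1.lt_or_eq with t1 | t1
    · refine ⟨k, l, hR, (h2.shift (n : ℝ)).congr (ε := t - (q + n)) (by linarith)
        fun s hs hs' => e n s (by linarith) (by linarith), fun hn => h3 ?_⟩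
      rwa [Dy.sub_int_iff]
    · obtain ⟨k', l', h1', h2', h3'⟩ := hF.2.slope (t - (n - 1 : ℤ))
      refine ⟨k, l', hR, (h2'.shift ((n - 1 : ℤ) : ℝ)).congr (ε := 1) one_pos
        fun s hs hs' => e (n - 1) s (by push_cast; linarith) (by push_cast; linarith),
        fun hn => absurd ?_ hn⟩
      rw [← t1, Dy.add_int_iff]; exact hq
  · intro t
    have : ⌊t + 1 - q⌋ = ⌊t - q⌋ + 1 := by
      rw [← Int.floor_add_one]; congr 1; ring
    rw [e0, e0, this]; push_cast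
    have e3 : t + 1 - ((⌊t - q⌋ : ℝ) + 1) = t - ⌊t - q⌋ := by ring
    rw [e3]; ring

theorem TP.add_int {f : Equiv.Perm ℝ} (hf : f ∈ TP) (n : ℤ) (t : ℝ) : f (t + n) = f t + n := by
  have hnat : ∀ (n : ℕ) t, f (t + n) = f t + n := by
    intro n
    induction n with
    | zero => intro t; simp
    | succ m ih => intro t; push_cast; rw [← add_assoc, hf.2, ih]; ring
  obtain ⟨m, rfl | rfl⟩ := n.eq_nat_or_neg
  · simpa using hnat m t
  · have := hnat m (t + ((-(m : ℤ) : ℤ) : ℝ))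
    push_cast at this ⊢
    rw [neg_add_cancel_right] at this
    linarith

theorem TP.sub_int {f : Equiv.Perm ℝ} (hf : f ∈ TP) (n : ℤ) (t : ℝ) : f (t - n) = f t - n := by
  have := TP.add_int hf (-n) t
  push_cast at this
  rw [sub_eq_add_neg, this, sub_eq_add_neg]

/-- affine maps -/
noncomputable def aff (k : ℤ) (c : ℝ) : Equiv.Perm ℝ where
  toFun t := 2 ^ k * t + c
  invFun u := 2 ^ (-k) * (u - c)
  left_inv t := by
    have : (2 : ℝ) ^ (-k) * 2 ^ k = 1 := by rw [← zpow_add₀ (by norm_num)]; simp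
    change (2 : ℝ) ^ (-k) * (2 ^ k * t + c - c) = t
    rw [add_sub_cancel_right, ← mul_assoc, this, one_mul]
  right_inv u := by
    have : (2 : ℝ) ^ k * 2 ^ (-k) = 1 := by rw [← zpow_add₀ (by norm_num)]; simp
    change (2 : ℝ) ^ k * (2 ^ (-k) * (u - c)) + c = u
    rw [← mul_assoc, this, one_mul, sub_add_cancel]

theorem aff_apply (k : ℤ) (c t : ℝ) : aff k c t = 2 ^ k * t + c := rfl

theorem aff_mem (k : ℤ) {c : ℝ} (hc : Dy c) : aff k c ∈ PP := by
  refine ⟨fun s t hst => ?_, fun s => ?_, fun t => ?_⟩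
  · simp only [aff_apply]
    have := zpow2_pos k
    nlinarith
  · rw [aff_apply]
    constructor
    · intro h
      have := h.sub hc
      rwa [add_sub_cancel_right, Dy.zpow_mul_iff] at this
    · intro h
      exact ((Dy.zpow_mul_iff k).2 h).add hc
  · refine ⟨k, k, ⟨1, one_pos, fun s _ _ => ?_⟩, ⟨1, one_pos, fun s _ _ => ?_⟩, fun _ => rfl⟩ <;>
    · simp only [aff_apply]; ring

/-- `b` and `d` are related by a map fixing zero -/
def Rl (b d : ℝ) : Prop := ∃ f ∈ PP, f 0 = 0 ∧ f b = d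

theorem Rl.symm {b d : ℝ} (h : Rl b d) : Rl d b := by
  obtain ⟨f, hf, h0, hb⟩ := h
  refine ⟨f⁻¹, PP.inv_mem hf, ?_, ?_⟩
  · rw [Equiv.Perm.inv_eq_iff_eq, h0]
  · rw [Equiv.Perm.inv_eq_iff_eq, hb]

theorem Rl.trans {b d e : ℝ} (h : Rl b d) (h' : Rl d e) : Rl b e := by
  obtain ⟨f, hf, h0, hb⟩ := h
  obtain ⟨g, hg, h0', hb'⟩ := h'
  exact ⟨g * f, PP.mul_mem hg hf, by simp [Equiv.Perm.mul_apply, h0, h0'],
    by simp [Equiv.Perm.mul_apply, hb, hb']⟩

theorem Rl.scale (k : ℤ) (b : ℝ) : Rl b (2 ^ k * b) :=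
  ⟨aff k 0, aff_mem k Dy.zero, by simp [aff_apply], by simp [aff_apply]⟩

theorem Rl.succ (n : ℕ) : Rl ((n : ℝ) + 1) ((n : ℝ) + 2) := by
  have hn : Dy (n : ℝ) := by simpa using Dy.intCast (n : ℤ)
  obtain ⟨F, hF, h1, h2⟩ := exists_glue (PP.one_mem) (aff_mem 1 (c := -n) hn.neg) (a := n) hn
    (by simp [aff_apply]; ring)
  refine ⟨F, hF, ?_, ?_⟩
  · rw [h1 0 (by positivity)]; rfl
  · rw [h2 _ (by linarith), aff_apply]; simp; ring

theorem Rl.one_nat (n : ℕ) : Rl 1 ((n : ℝ) + 1) := by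
  induction n with
  | zero => simpa using Rl.scale 0 1
  | succ m ih =>
    refine ih.trans ?_
    have := Rl.succ m
    push_cast
    have e : (m : ℝ) + 1 + 1 = m + 2 := by ring
    rwa [e]

theorem Rl.one_of_pos {b : ℝ} (hb : Dy b) (h : 0 < b) : Rl b 1 := by
  obtain ⟨n, k, hn⟩ := hb
  have hp : (0 : ℝ) < 2 ^ k := by positivity
  have hn0 : 0 < n := by
    have : (0 : ℝ) < n := by rw [← hn]; positivity
    exact_mod_cast this
  obtain ⟨m, rfl⟩ : ∃ m : ℕ, n = m + 1 := ⟨(n - 1).toNat, by omega⟩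
  have h1 := Rl.scale k b
  have e : (2 : ℝ) ^ (k : ℤ) * b = (m : ℝ) + 1 := by
    rw [zpow_natCast, mul_comm, hn]; push_cast; rfl
  rw [e] at h1
  exact h1.trans (Rl.one_nat m).symm

theorem exists_PP {a b c d : ℝ} (ha : Dy a) (hb : Dy b) (hc : Dy c) (hd : Dy d) (hab : a < b)
    (hcd : c < d) : ∃ f ∈ PP, f a = c ∧ f b = d := by
  obtain ⟨f, hf, h0, h1⟩ := (Rl.one_of_pos (hb.sub ha) (by linarith)).trans
    (Rl.one_of_pos (hd.sub hc) (by linarith)).symm
  refine ⟨aff 0 c * f * aff 0 (-a), PP.mul_mem (PP.mul_mem (aff_mem 0 hc) hf) (aff_mem 0 ha.neg),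
    ?_, ?_⟩
  · simp [Equiv.Perm.mul_apply, aff_apply, h0]
  · have : b + -a = b - a := by ring
    simp [Equiv.Perm.mul_apply, aff_apply, this, h1]

/-- extension from `[a,b]`, general form: prescribe values on `[a,b]` -/
theorem exists_TP_of_local {g : Equiv.Perm ℝ} (hg : g ∈ PP) {a b : ℝ} (ha : Dy a) (hb : Dy b)
    (hab : a < b) (hb1 : b < a + 1) (hgb : g b < g a + 1) :
    ∃ v ∈ TP, ∀ t, a ≤ t → t ≤ b → v t = g t := by
  obtain ⟨f, hf, h1, h2⟩ := exists_PP hb (ha.add Dy.one) ((hg.2.dy b).2 hb)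
    (((hg.2.dy a).2 ha).add Dy.one) hb1 hgb
  obtain ⟨F, hF, h3, h4⟩ := exists_glue hg hf hb h1.symm
  obtain ⟨P, hP, h5⟩ := exists_per hF ha (by rw [h4 _ hb1.le, h2, h3 _ hab.le])
  exact ⟨P, hP, fun t h6 h7 => by rw [h5 t h6 (by linarith), h3 t h7]⟩

/-- the extension property with support in `[c,d]` -/
theorem exists_ext {g : Equiv.Perm ℝ} (hg : g ∈ PP) {a b c d : ℝ} (ha : Dy a) (hb : Dy b)
    (hc : Dy c) (hd : Dy d) (hca : c < a) (hab : a < b) (hbd : b < d) (hd1 : d ≤ c + 1)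
    (hga : c < g a) (hgb : g b < d) :
    ∃ v ∈ TP, (∀ t, a ≤ t → t ≤ b → v t = g t) ∧ (∀ t, d ≤ t → t ≤ c + 1 → v t = t) := by
  obtain ⟨f, hf, h1, h2⟩ := exists_PP hb hd ((hg.2.dy b).2 hb) hd hbd hgb
  obtain ⟨f', hf', h1', h2'⟩ := exists_PP hc ha hc ((hg.2.dy a).2 ha) hca hga
  obtain ⟨F3, hF3, e3, e3'⟩ := exists_glue hf PP.one_mem hd h2
  obtain ⟨F2, hF2, e2, e2'⟩ := exists_glue hg hF3 hb (by rw [e3 _ hbd.le, h1])
  obtain ⟨F1, hF1, e1, e1'⟩ := exists_glue hf' hF2 ha (by rw [h2', e2 _ hab.le])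
  have hc0 : F1 c = c := by rw [e1 _ hca.le, h1']
  have hc1 : F1 (c + 1) = c + 1 := by
    rw [e1' _ (by linarith), e2' _ (by linarith), e3' _ (by linarith)]; rfl
  obtain ⟨P, hP, h5⟩ := exists_per hF1 hc (by rw [hc0, hc1])
  refine ⟨P, hP, fun t h6 h7 => ?_, fun t h6 h7 => ?_⟩
  · rw [h5 t (by linarith) (by linarith), e1' _ h6, e2 _ h7]
  · rw [h5 t (by linarith) h7, e1' _ (by linarith), e2' _ (by linarith), e3' _ h6]; rfl

end Pool.Agent.MP_317377_al
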