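import Pool.Agent.MP_317377_al.GG

/-! The main generation argument. -/

namespace Pool.Agent.MP_317377_al

open Set Filter Topology commutatorElement

theorem dyq (n : ℤ) (k : ℕ) : Dy ((n : ℝ) / 2 ^ k) := ⟨n, k, by field_simp⟩

theorem tau_mem_TP : tau ∈ TP := by
  refine ⟨?_, fun t => rfl⟩
  have := aff_mem 0 Dy.one
  have e : tau = aff 0 1 := by ext t; simp [aff_apply]
  rw [e]; exact this

theorem tau_zpow (n : ℤ) (t : ℝ) : (tau ^ n) t = t + n := by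
  have h0 : ∀ (n : ℕ) t, (tau ^ n) t = t + n := by
    intro n
    induction n with
    | zero => intro t; simp
    | succ m ih => intro t; rw [pow_succ, Equiv.Perm.mul_apply, ih, tau_apply]; push_cast; ring
  obtain ⟨m, rfl | rfl⟩ := n.eq_nat_or_neg
  · rw [zpow_natCast, h0]; simp
  · rw [zpow_neg, Equiv.Perm.inv_eq_iff_eq, zpow_natCast, h0]; push_cast; ring

theorem fix_conj {c d : ℝ} (hcd : d ≤ c + 1) {k f : Equiv.Perm ℝ} (hk : k ∈ GG)
    (hf : f ∈ rist c d) (H : ∀ t, c < t → t < d → k t = t) : k * f * k⁻¹ = f := by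
  have h1 : k * f * k⁻¹ ∈ rist c d := rist_conj hcd hk hf fun t t0 t1 => by
    rw [H t t0 t1]; exact ⟨t0, t1⟩
  refine TP.ext h1.1 hf.1 c fun t t0 t1 => ?_
  rcases lt_or_ge t d with ht | ht
  · rcases t0.lt_or_eq with t0 | rfl
    · have e : k⁻¹ t = t := by rw [Equiv.Perm.inv_eq_iff_eq, H t t0 ht]
      obtain ⟨b1, b2⟩ := rist_bounds' hcd hf t0 ht
      rw [Equiv.Perm.mul_apply, Equiv.Perm.mul_apply, e, H _ b1 b2]
    · rw [rist_fix_c hcd h1, rist_fix_c hcd hf]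
  · rw [h1.2 t ht t1, hf.2 t ht t1]

theorem xi_half_val {u : ℝ} (h0 : 0 ≤ u) (h1 : u ≤ 1) : xi 0 (-1) (u / 2) = x0 u / 2 := by
  have h := (xi_spec Dy.zero (by norm_num : (-1 : ℤ) ≤ 0)).2 u h0 (by
    rw [zpow_neg_one]; linarith)
  rw [zpow_neg_one] at h
  have e1 : (0 : ℝ) + 2⁻¹ * u = u / 2 := by ring
  have e2 : (0 : ℝ) + 2⁻¹ * x0 u = x0 u / 2 := by ring
  rwa [e1, e2] at h

theorem rist_half : rist 0 (1 / 2) = rist 0 (0 + 2 ^ (-1 : ℤ)) := by
  rw [zpow_neg_one]; norm_num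

theorem s_mem : xi 0 (-1) ∈ rist 0 (1 / 2) := by
  rw [rist_half]
  exact xi_mem_rist Dy.zero (by norm_num) le_rfl le_rfl

theorem quarter : (0 : ℝ) + 2 ^ ((-1 : ℤ) - 1) = 1 / 4 := by norm_num

theorem half_dy : Dy (1 / 2) := by simpa using dyq 1 1
theorem quarter_dy : Dy (1 / 4) := by have := dyq 1 2; norm_num at this ⊢; exact this

theorem phi_mem : xi (1 / 4) (-2) ∈ rist (1 / 4) (1 / 2) :=
  xi_mem_rist quarter_dy (by norm_num) le_rfl (by norm_num)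

/-- the abstract generation statement -/
theorem TP_le_of {H : Subgroup (Equiv.Perm ℝ)} (hH : H ≤ GG) (ht : tau ∈ H)
    (P1 : ∃ f ∈ H, ∀ t, -1 / 8 ≤ t → t ≤ 5 / 8 → f t = xi 0 (-1) t)
    (P2 : ∃ q ∈ H, q ∈ TP ∧ ∀ t, -1 / 8 ≤ t → t ≤ 5 / 8 → q t = (xi (1 / 4) (-2))⁻¹ t)
    (P3 : ∃ w ∈ H, ∀ t, -1 / 8 ≤ t → t ≤ 5 / 8 → w t = 1 / 2 - t / 2)
    (P4 : ∃ y ∈ H, ∀ t, 5 / 8 ≤ t → t ≤ 7 / 8 → -1 / 8 < y t ∧ y t < 5 / 8) : TP ≤ H := by
  obtain ⟨f1, hf1, F1⟩ := P1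
  obtain ⟨q, hq, hqT, Q⟩ := P2
  obtain ⟨w, hw, W0⟩ := P3
  obtain ⟨y, hy, Y⟩ := P4
  -- elements of `rist 0 (1/2)` preserve the big interval
  have pres : ∀ γ ∈ rist 0 (1 / 2), ∀ t, -1 / 8 ≤ t → t ≤ 5 / 8 →
      -1 / 8 ≤ γ t ∧ γ t ≤ 5 / 8 := fun γ hγ t t0 t1 =>
    rist_bounds (c := -1 / 8) (d := 5 / 8) (by norm_num) (rist_mono (by norm_num) (by norm_num) hγ)
      t0 t1
  -- realising local elements
  have real : ∀ γ ∈ rist 0 (1 / 2), ∃ h ∈ H, ∀ t, -1 / 8 ≤ t → t ≤ 5 / 8 → h t = γ t := by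
    intro γ hγ
    have hγ' : γ ∈ Gam 0 (-1) := rist_le_Gam Dy.zero (by norm_num) (by rw [← rist_half]; exact hγ)
    have hG : Gam 0 (-1) ≤ rist 0 (1 / 2) := by
      rw [rist_half]; exact Gam_le_rist Dy.zero (by norm_num)
    clear hγ
    rw [Gam] at hγ'
    induction hγ' using Subgroup.closure_induction with
    | mem x hx =>
      rcases hx with rfl | rfl
      · exact ⟨f1, hf1, F1⟩
      · refine ⟨q⁻¹, H.inv_mem hq, fun t t0 t1 => ?_⟩
        have e0 : xi (0 + 2 ^ ((-1 : ℤ) - 1)) (-1 - 1) = xi (1 / 4) (-2) := by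
          rw [quarter]; norm_num
        rw [e0, Equiv.Perm.inv_eq_iff_eq]
        have b := pres _ (rist_mono (by norm_num) le_rfl phi_mem) t t0 t1
        rw [Q _ b.1 b.2, ia]
    | one => exact ⟨1, H.one_mem, fun _ _ _ => rfl⟩
    | mul a b ha hb iha ihb =>
      obtain ⟨h1, m1, e1⟩ := iha
      obtain ⟨h2, m2, e2⟩ := ihb
      refine ⟨h1 * h2, H.mul_mem m1 m2, fun t t0 t1 => ?_⟩
      have b2 := pres b (hG hb) t t0 t1
      rw [Equiv.Perm.mul_apply, e2 t t0 t1, e1 _ b2.1 b2.2, Equiv.Perm.mul_apply]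
    | inv a ha iha =>
      obtain ⟨h1, m1, e1⟩ := iha
      refine ⟨h1⁻¹, H.inv_mem m1, fun t t0 t1 => ?_⟩
      have b2 := pres a⁻¹ ((rist 0 (1 / 2)).inv_mem (hG ha)) t t0 t1
      rw [Equiv.Perm.inv_eq_iff_eq, e1 _ b2.1 b2.2, ai]
  -- the contraction
  have hWH : w * w ∈ H := H.mul_mem hw hw
  have hW : ∀ t, -1 / 8 ≤ t → t ≤ 5 / 8 → (w * w) t = 1 / 4 + t / 4 := by
    intro t t0 t1
    rw [Equiv.Perm.mul_apply, W0 t t0 t1, W0 _ (by linarith) (by linarith)]; ring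
  set W := w * w with hWdef
  -- the element moving everything below a quarter
  obtain ⟨hσ, mσ, Eσ⟩ := real ((xi 0 (-1))⁻¹ * (xi 0 (-1))⁻¹)
    ((rist 0 (1 / 2)).mul_mem ((rist 0 (1 / 2)).inv_mem s_mem) ((rist 0 (1 / 2)).inv_mem s_mem))
  have σval : ∀ u, 7 / 32 ≤ u → u ≤ 13 / 32 → 0 < hσ u ∧ hσ u < 1 / 4 := by
    intro u u0 u1
    rw [Eσ u (by linarith) (by linarith)]
    set σ := (xi 0 (-1))⁻¹ * (xi 0 (-1))⁻¹ with hσd
    have mono : StrictMono σ :=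
      ((rist 0 (1 / 2)).mul_mem ((rist 0 (1 / 2)).inv_mem s_mem)
        ((rist 0 (1 / 2)).inv_mem s_mem)).1.1.1
    have σ0 : σ 0 = 0 := rist_fix_c (d := 1 / 2) (by norm_num)
      ((rist 0 (1 / 2)).mul_mem ((rist 0 (1 / 2)).inv_mem s_mem)
        ((rist 0 (1 / 2)).inv_mem s_mem))
    have v1 : xi 0 (-1) (3 / 16) = 5 / 16 := by
      have := xi_half_val (u := 3 / 8) (by norm_num) (by norm_num)
      rw [x0_b (by norm_num) (by norm_num)] at this
      norm_num at this ⊢; exact this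
    have v2 : xi 0 (-1) (5 / 16) = 13 / 32 := by
      have := xi_half_val (u := 5 / 8) (by norm_num) (by norm_num)
      rw [x0_c (by norm_num) (by norm_num)] at this
      norm_num at this ⊢; exact this
    have v3 : σ (13 / 32) = 3 / 16 := by
      rw [hσd, Equiv.Perm.mul_apply, Equiv.Perm.inv_eq_iff_eq, Equiv.Perm.inv_eq_iff_eq, v1, v2]
    constructor
    · rw [← σ0]; exact mono (by linarith)
    · have := mono.monotone u1
      rw [v3] at this
      linarith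
  have g1val : ∀ t, 5 / 8 ≤ t → t ≤ 7 / 8 → 0 < (hσ * W * y) t ∧ (hσ * W * y) t < 1 / 4 := by
    intro t t0 t1
    obtain ⟨b1, b2⟩ := Y t t0 t1
    rw [Equiv.Perm.mul_apply, Equiv.Perm.mul_apply, hW _ b1.le b2.le]
    exact σval _ (by linarith) (by linarith)
  set g1 := hσ * W * y with hg1
  have g1H : g1 ∈ H := H.mul_mem (H.mul_mem mσ hWH) hy
  set c1 := g1⁻¹ * q * g1 with hc1
  have c1H : c1 ∈ H := H.mul_mem (H.mul_mem (H.inv_mem g1H) hq) g1H
  have c1R : c1 ∈ rist (-1 / 8) (5 / 8) := by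
    refine ⟨TP_normal' (hH g1H) hqT, fun t t0 t1 => ?_⟩
    obtain ⟨b1, b2⟩ := g1val t t0 (by linarith)
    have e : q (g1 t) = g1 t := by
      rw [Q _ (by linarith) (by linarith), Equiv.Perm.inv_eq_iff_eq,
        rist_fix_left phi_mem (by linarith) b2.le]
    rw [hc1, Equiv.Perm.mul_apply, Equiv.Perm.mul_apply, e, ia]
  set c := W * c1 * W⁻¹ with hcdef
  have cH : c ∈ H := H.mul_mem (H.mul_mem hWH c1H) (H.inv_mem hWH)
  have cR : c ∈ rist 0 (1 / 2) := rist_conj (by norm_num) (hH hWH) c1R fun t t0 t1 => by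
    rw [hW t t0.le t1.le]; constructor <;> linarith
  have cne : c ≠ 1 := by
    intro h
    have e1 : c1 = 1 := by
      have : c1 = W⁻¹ * c * W := by rw [hcdef]; group
      rw [this, h]; group
    have e2 : q = 1 := by
      have : q = g1 * c1 * g1⁻¹ := by rw [hc1]; group
      rw [this, e1]; group
    have e3 := Q (3 / 8) (by norm_num) (by norm_num)
    rw [e2, Equiv.Perm.coe_one, id, eq_comm, Equiv.Perm.inv_eq_iff_eq] at e3
    have e4 := (xi_spec quarter_dy (by norm_num : (-2 : ℤ) ≤ 0)).2 (1 / 2) (by norm_num)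
      (by norm_num)
    rw [x0_b (by norm_num) le_rfl] at e4
    have e5 : (1 : ℝ) / 4 + 2 ^ (-2 : ℤ) * (1 / 2) = 3 / 8 := by norm_num
    rw [e5, ← e3] at e4
    norm_num at e4
  -- conjugates of `c`
  have conjc : ∀ γ ∈ rist 0 (1 / 2), γ * c * γ⁻¹ ∈ H := by
    intro γ hγ
    obtain ⟨h, hh, e⟩ := real γ hγ
    have hk : γ⁻¹ * h ∈ GG := GG.mul_mem (GG.inv_mem (TP_le_GG hγ.1)) (hH hh)
    have := fix_conj (by norm_num) hk cR fun t t0 t1 => by
      rw [Equiv.Perm.mul_apply, e t (by linarith) (by linarith), ia]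
    have e2 : γ * c * γ⁻¹ = h * c * h⁻¹ := by
      conv_lhs => rw [← this]
      group
    rw [e2]
    exact H.mul_mem (H.mul_mem hh cH) (H.inv_mem hh)
  -- a nontrivial commutator group
  obtain ⟨c', c'H, c'R, conjc', t0, ht0, ht0', ht0c⟩ : ∃ c' ∈ H, c' ∈ rist 0 (1 / 2) ∧
      (∀ γ ∈ rist 0 (1 / 2), γ * c' * γ⁻¹ ∈ H) ∧ ∃ t, 0 < t ∧ t < 1 / 2 ∧ t < c' t := by
    have : ∃ t, c t ≠ t := by
      by_contra hcon
      push Not at hcon
      exact cne (Equiv.ext hcon)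
    obtain ⟨t, ht⟩ := this
    obtain ⟨n, n1, n2⟩ := rist_moves (by norm_num) cR ht
    have hne : c (t + n) ≠ t + n := by
      rw [TP.add_int cR.1]
      intro h; exact ht (by linarith)
    rcases lt_or_gt_of_ne hne with h | h
    · refine ⟨c⁻¹, H.inv_mem cH, (rist 0 (1 / 2)).inv_mem cR, fun γ hγ => ?_, c (t + n), ?_⟩
      · have := H.inv_mem (conjc γ hγ)
        have e : (γ * c * γ⁻¹)⁻¹ = γ * c⁻¹ * γ⁻¹ := by group
        rwa [e] at this
      · obtain ⟨b1, b2⟩ := rist_bounds' (by norm_num) cR n1 n2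
        exact ⟨b1, b2, by rw [ia]; exact h⟩
    · exact ⟨c, cH, cR, conjc, t + n, n1, n2, h⟩
  obtain ⟨d2, dd2, d21, d22⟩ := Dy.exists_between ht0c
  have d2half : d2 < 1 / 2 := d22.trans (rist_bounds' (by norm_num) c'R ht0 ht0').2
  have hinvlt : c'⁻¹ d2 < t0 := by
    rw [← c'R.1.1.1.lt_iff_lt, ai]; exact d22
  have hinvpos : 0 < c'⁻¹ d2 :=
    (rist_bounds' (by norm_num) ((rist 0 (1 / 2)).inv_mem c'R) (ht0.trans d21) d2half).1
  obtain ⟨c2, dc2, c21, c22⟩ := Dy.exists_between hinvlt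
  have c2d2 : c2 < d2 := c22.trans d21
  have hmove : d2 < c' c2 := by
    have := c'R.1.1.1 c21
    rwa [ai] at this
  have hc2pos : 0 < c2 := hinvpos.trans c21
  have hsub : rist c2 d2 ≤ rist 0 (1 / 2) := rist_mono hc2pos.le d2half.le
  have hcomm : ⁅rist c2 d2, rist c2 d2⁆ ≤ H := by
    rw [Subgroup.commutator_le]
    intro a ha b hb
    have ha' := hsub ha
    have hb' := hsub hb
    -- c' a⁻¹ c'⁻¹ commutes with b
    have r1 : c' * a⁻¹ * c'⁻¹ ∈ rist (c' c2) (c' d2) :=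
      rist_conj (by linarith) (TP_le_GG c'R.1) ((rist c2 d2).inv_mem ha) fun t u0 u1 =>
        ⟨c'R.1.1.1 u0, c'R.1.1.1 u1⟩
    have hcd2 : c' d2 < 1 / 2 := (rist_bounds' (by norm_num) c'R (by linarith) d2half).2
    have com := rist_commute c2d2.le hmove.le (c'R.1.1.1.monotone c2d2.le)
      (by linarith) hb r1
    have m1 : a * c' * a⁻¹ ∈ H := conjc' a ha'
    have m2 : b * c' * b⁻¹ ∈ H := conjc' b hb'
    have m3 : (b * a) * c' * (b * a)⁻¹ ∈ H := conjc' _ ((rist 0 (1 / 2)).mul_mem hb' ha')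
    have key : ⁅a, b⁆ = (a * c' * a⁻¹ * c'⁻¹) * ((b * c' * b⁻¹) * ((b * a) * c' * (b * a)⁻¹)⁻¹) := by
      rw [commutatorElement_def]
      have e1 : (a * c' * a⁻¹ * c'⁻¹) * ((b * c' * b⁻¹) * ((b * a) * c' * (b * a)⁻¹)⁻¹)
        = a * ((c' * a⁻¹ * c'⁻¹) * b) * c' * a * c'⁻¹ * a⁻¹ * b⁻¹ := by group
      rw [e1, ← com]
      group
    rw [key]
    exact H.mul_mem (H.mul_mem m1 (H.inv_mem c'H)) (H.mul_mem m2 (H.inv_mem m3))
  -- a small local group
  obtain ⟨a3, da3, a31, a32⟩ := Dy.exists_between c2d2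
  obtain ⟨e3, he3, he3'⟩ : ∃ e : ℤ, e ≤ 0 ∧ a3 + 2 ^ e < d2 := by
    obtain ⟨k, hk⟩ := pow_unbounded_of_one_lt (1 / (d2 - a3)) (by norm_num : (1 : ℝ) < 2)
    have hp : 0 < d2 - a3 := by linarith
    rw [div_lt_iff₀ hp] at hk
    refine ⟨-k, by omega, ?_⟩
    rw [zpow_neg, zpow_natCast]
    have hpk : (0 : ℝ) < 2 ^ k := by positivity
    have : ((2 : ℝ) ^ k)⁻¹ < d2 - a3 := by
      rw [inv_lt_iff_one_lt_mul₀ hpk]; linarith
    linarith
  have hsmall : rist a3 (a3 + 2 ^ e3) ≤ H :=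
    (rist_le_comm da3 dc2 dd2 he3 (by linarith) a31 he3').trans hcomm
  -- expanding to the big interval
  have hp3 := zpow2_pos e3
  have hbig : rist (-1 / 8) (5 / 8) ≤ H := by
    obtain ⟨p, dp, p1, p2⟩ := Dy.exists_between (show a3 < a3 + 2 ^ e3 by linarith)
    obtain ⟨p', dp', p1', p2'⟩ := Dy.exists_between p2
    have D1 : Dy (7 / 32) := by have := dyq 7 5; norm_num at this ⊢; exact this
    have D2 : Dy (13 / 32) := by have := dyq 13 5; norm_num at this ⊢; exact this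
    obtain ⟨g0, hg0, e0, e0'⟩ := exists_PP D1 D2 dp dp' (by norm_num) p1'
    obtain ⟨g2, hg2, e2, e2'⟩ := exists_ext hg0 D1 D2 Dy.zero half_dy (by norm_num) (by norm_num)
      (by norm_num) (by norm_num) (by rw [e0]; linarith) (by rw [e0']; linarith)
    have g2R : g2 ∈ rist 0 (1 / 2) := ⟨hg2, e2'⟩
    obtain ⟨h, hh, eh⟩ := real g2 g2R
    intro u hu
    have hhW : h * W ∈ H := H.mul_mem hh hWH
    have : (h * W) * u * (h * W)⁻¹ ∈ rist a3 (a3 + 2 ^ e3) := by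
      refine rist_conj (by norm_num) (hH hhW) hu fun t u0 u1 => ?_
      rw [Equiv.Perm.mul_apply, hW t u0.le u1.le, eh _ (by linarith) (by linarith),
        e2 _ (by linarith) (by linarith)]
      constructor
      · have : g0 (7 / 32) ≤ g0 (1 / 4 + t / 4) := hg0.1.monotone (by linarith)
        rw [e0] at this; linarith
      · have : g0 (1 / 4 + t / 4) ≤ g0 (13 / 32) := hg0.1.monotone (by linarith)
        rw [e0'] at this; linarith
    have h2 := hsmall this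
    have e : u = (h * W)⁻¹ * ((h * W) * u * (h * W)⁻¹) * (h * W) := by group
    rw [e]
    exact H.mul_mem (H.mul_mem (H.inv_mem hhW) h2) hhW
  -- elements fixing an interval
  have C1 : ∀ p p', Dy p → Dy p' → -1 / 8 < p → p < p' → p' < 5 / 8 → ∀ u ∈ TP,
      (∀ t, p ≤ t → t ≤ p' → u t = t) → u ∈ H := by
    intro p p' dp dp' hp hpp hp' u hu hfix
    have D58 : Dy (5 / 8) := by have := dyq 5 3; norm_num at this ⊢; exact this
    have D78 : Dy (7 / 8) := by have := dyq 7 3; norm_num at this ⊢; exact this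
    have D18 : Dy (-1 / 8) := by have := dyq (-1) 3; norm_num at this ⊢; exact this
    have hyG := hH hy
    obtain ⟨lo, hi, dlo, dhi, hlh, hlo, hhi, hran⟩ : ∃ lo hi, Dy lo ∧ Dy hi ∧ lo < hi ∧
        -1 / 8 < lo ∧ hi < 5 / 8 ∧ ∀ t, 5 / 8 ≤ t → t ≤ 7 / 8 → lo ≤ y t ∧ y t ≤ hi := by
      have hyG2 := hyG
      rcases hyG2 with hyG' | hyG'
      · exact ⟨y (5 / 8), y (7 / 8), (GG.dy hyG _).2 D58, (GG.dy hyG _).2 D78,
          hyG'.1.1 (by norm_num), (Y _ (by norm_num) (by norm_num)).1,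
          (Y _ (by norm_num) (by norm_num)).2, fun t t0 t1 =>
          ⟨hyG'.1.1.monotone t0, hyG'.1.1.monotone t1⟩⟩
      · have an := rev_anti hyG'
        exact ⟨y (7 / 8), y (5 / 8), (GG.dy hyG _).2 D78, (GG.dy hyG _).2 D58,
          an (by norm_num), (Y _ (by norm_num) (by norm_num)).1,
          (Y _ (by norm_num) (by norm_num)).2, fun t t0 t1 =>
          ⟨an.antitone t1, an.antitone t0⟩⟩
    obtain ⟨g0, hg0, e0, e0'⟩ := exists_PP dlo dhi dp dp' hlh hpp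
    obtain ⟨g2, hg2, e2, e2'⟩ := exists_ext hg0 dlo dhi D18 D58 hlo hlh hhi (by norm_num)
      (by rw [e0]; exact hp) (by rw [e0']; exact hp')
    have g2H : g2 ∈ H := hbig ⟨hg2, e2'⟩
    have hvH : g2 * y ∈ H := H.mul_mem g2H hy
    have hval : ∀ t, 5 / 8 ≤ t → t ≤ 7 / 8 → p ≤ (g2 * y) t ∧ (g2 * y) t ≤ p' := by
      intro t t0 t1
      obtain ⟨b1, b2⟩ := hran t t0 t1
      rw [Equiv.Perm.mul_apply, e2 _ b1 b2]
      constructor
      · rw [← e0]; exact hg0.1.monotone b1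
      · rw [← e0']; exact hg0.1.monotone b2
    have h2 : (g2 * y)⁻¹ * u * (g2 * y) ∈ rist (-1 / 8) (5 / 8) := by
      refine ⟨TP_normal' (hH hvH) hu, fun t t0 t1 => ?_⟩
      obtain ⟨b1, b2⟩ := hval t t0 (by linarith)
      rw [Equiv.Perm.mul_apply, Equiv.Perm.mul_apply, hfix _ b1 b2, ia]
    have h3 := hbig h2
    have e : u = (g2 * y) * ((g2 * y)⁻¹ * u * (g2 * y)) * (g2 * y)⁻¹ := by group
    rw [e]
    exact H.mul_mem (H.mul_mem hvH h3) (H.inv_mem hvH)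
  -- everything
  intro g hg
  have : ∃ r, Dy r ∧ 0 < r ∧ r < 5 / 8 ∧ ∀ m : ℤ, g 0 ≠ r + m := by
    by_cases h : ∃ m : ℤ, g 0 = 1 / 4 + m
    · obtain ⟨m, hm⟩ := h
      refine ⟨1 / 2, half_dy, by norm_num, by norm_num, fun n hn => ?_⟩
      rw [hm] at hn
      have h1 : ((m - n : ℤ) : ℝ) = 1 / 4 := by push_cast; linarith
      have h2 : ((4 * (m - n) : ℤ) : ℝ) = (1 : ℤ) := by push_cast at h1 ⊢; linarith
      have h3 : 4 * (m - n) = 1 := by exact_mod_cast h2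
      omega
    · push Not at h
      exact ⟨1 / 4, quarter_dy, by norm_num, by norm_num, h⟩
  obtain ⟨r, dr, r0, r1, hr⟩ := this
  set m := ⌊g 0 - r⌋ with hm
  have m1 := Int.floor_le (g 0 - r)
  have m2 := Int.lt_floor_add_one (g 0 - r)
  rw [← hm] at m1 m2
  have m1' : (m : ℝ) < g 0 - r := lt_of_le_of_ne m1 fun h => hr m (by linarith)
  set g' := tau ^ (-(m + 1)) * g with hg'
  have g'T : g' ∈ TP := TP.mul_mem (TP.zpow_mem tau_mem_TP _) hg
  have g'v : ∀ t, g' t = g t - (m + 1) := by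
    intro t
    rw [hg', Equiv.Perm.mul_apply, tau_zpow]; push_cast; ring
  suffices hs : g' ∈ H by
    have e : g = tau ^ (m + 1) * g' := by rw [hg', ← mul_assoc, ← zpow_add]; simp
    rw [e]
    exact H.mul_mem (H.zpow_mem ht _) hs
  have q1 : r - 1 < g' 0 := by rw [g'v]; linarith
  have q2 : g' 0 < r := by rw [g'v]; linarith
  have mono := g'T.1.1
  have i1 : g'⁻¹ (r - 1) < 0 := by rw [← mono.lt_iff_lt, ai]; exact q1
  have i2 : 0 < g'⁻¹ r := by rw [← mono.lt_iff_lt, ai]; exact q2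
  obtain ⟨p, dp, p1, p2⟩ := Dy.exists_between
    (show max (max (-1 / 8) (r - 1)) (g'⁻¹ (r - 1)) < 0 from
      max_lt (max_lt (by norm_num) (by linarith)) i1)
  obtain ⟨p', dp', p1', p2'⟩ := Dy.exists_between
    (show 0 < min r (g'⁻¹ r) from lt_min r0 i2)
  rw [max_lt_iff, max_lt_iff] at p1
  rw [lt_min_iff] at p2'
  obtain ⟨⟨pa, pb⟩, pc⟩ := p1
  obtain ⟨pa', pb'⟩ := p2'
  have gp : r - 1 < g' p := by
    have := mono pc; rwa [ai] at this
  have gp' : g' p' < r := by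
    have := mono pb'; rwa [ai] at this
  obtain ⟨cc, dcc, cc1, cc2⟩ := Dy.exists_between
    (show r - 1 < min p (g' p) from lt_min pb gp)
  obtain ⟨dd, ddd, dd1, dd2'⟩ := Dy.exists_between
    (show max p' (g' p') < r from max_lt pa' gp')
  rw [lt_min_iff] at cc2
  rw [max_lt_iff] at dd1
  obtain ⟨v, hv, v1, v2⟩ := exists_ext g'T.1 dp dp' dcc ddd cc2.1 (by linarith) dd1.1 (by linarith)
    cc2.2 dd1.2
  have vH : v ∈ H := C1 dd r ddd dr (by linarith [dd1.1]) dd2' r1 v hv fun t t0 t1 =>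
    v2 t t0 (by linarith)
  have uH : v⁻¹ * g' ∈ H := C1 p p' dp dp' pa (by linarith) (by linarith) _
    (TP.mul_mem (TP.inv_mem hv) g'T) fun t t0 t1 => by
      rw [Equiv.Perm.mul_apply, Equiv.Perm.inv_eq_iff_eq, v1 t t0 t1]
  have e : g' = v * (v⁻¹ * g') := by group
  rw [e]
  exact H.mul_mem vH uH

end Pool.Agent.MP_317377_al
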