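import Pool.Agent.MP_317377_al.Glue

/-! Binary trees and dyadic piecewise linear maps. -/

namespace Pool.Agent.MP_317377_al

open Set Filter Topology

/-- full binary trees -/
inductive BT : Type
  | leaf : BT
  | node : BT → BT → BT

/-- number of leaves -/
def BT.n : BT → ℕ
  | .leaf => 1
  | .node l r => l.n + r.n

/-- the map sending the `i`-th leaf affinely onto `[i, i+1]` -/
noncomputable def BT.c : BT → ℝ → ℝ
  | .leaf, x => x
  | .node l r, x => if x ≤ 1 / 2 then l.c (2 * x) else l.n + r.c (2 * x - 1)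

theorem BT.n_pos (t : BT) : 0 < t.n := by
  induction t with
  | leaf => simp [BT.n]
  | node l r h1 h2 => simp only [BT.n]; omega

theorem BT.c_zero (t : BT) : t.c 0 = 0 := by
  induction t with
  | leaf => simp [BT.c]
  | node l r h1 h2 => simp [BT.c, h1]

theorem BT.c_one (t : BT) : t.c 1 = t.n := by
  induction t with
  | leaf => simp [BT.c, BT.n]
  | node l r h1 h2 =>
    have : ¬ (1 : ℝ) ≤ 1 / 2 := by norm_num
    have e : (2 : ℝ) * 1 - 1 = 1 := by norm_num
    simp only [BT.c, BT.n, this, if_false, e, h2]; push_cast; rfl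

theorem BT.c_left (l r : BT) {x : ℝ} (hx : x ≤ 1 / 2) : (BT.node l r).c x = l.c (2 * x) := by
  simp only [BT.c, hx, if_true]

theorem BT.c_right (l r : BT) {x : ℝ} (hx : 1 / 2 ≤ x) :
    (BT.node l r).c x = l.n + r.c (2 * x - 1) := by
  rcases hx.lt_or_eq with hx | rfl
  · simp only [BT.c, not_le.2 hx, if_false]
  · rw [BT.c_left _ _ le_rfl]
    norm_num [BT.c_one, BT.c_zero]

theorem BT.c_strictMono (t : BT) : StrictMono t.c := by
  induction t with
  | leaf => exact fun a b h => by simpa [BT.c] using h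
  | node l r h1 h2 =>
    intro a b hab
    rcases le_total b (1 / 2) with hb | hb
    · rw [BT.c_left _ _ hb, BT.c_left _ _ (by linarith)]
      exact h1 (by linarith)
    · rcases le_total (1 / 2) a with ha | ha
      · rw [BT.c_right _ _ hb, BT.c_right _ _ ha]
        have := h2 (show 2 * a - 1 < 2 * b - 1 by linarith)
        linarith
      · rw [BT.c_right _ _ hb, BT.c_left _ _ ha]
        rcases ha.lt_or_eq with ha | rfl
        · calc l.c (2 * a) < l.c 1 := h1 (by linarith)
            _ = l.n + r.c 0 := by rw [BT.c_one, BT.c_zero, add_zero]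
            _ ≤ _ := by
              have := h2.monotone (show 0 ≤ 2 * b - 1 by linarith)
              linarith
        · have := h2 (show 0 < 2 * b - 1 by linarith)
          rw [BT.c_zero] at this
          have e : (2 : ℝ) * (1 / 2) = 1 := by norm_num
          rw [e, BT.c_one]; linarith

/-- uniform tree -/
def BT.U : ℕ → BT
  | 0 => .leaf
  | k + 1 => .node (BT.U k) (BT.U k)

theorem BT.U_n (k : ℕ) : (BT.U k).n = 2 ^ k := by
  induction k with
  | zero => rfl
  | succ m ih => simp only [BT.U, BT.n, ih]; ring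

theorem BT.U_c (k : ℕ) (x : ℝ) : (BT.U k).c x = 2 ^ k * x := by
  induction k generalizing x with
  | zero => simp [BT.U, BT.c]
  | succ m ih =>
    rcases le_total x (1 / 2) with hx | hx
    · rw [BT.U, BT.c_left _ _ hx, ih]; ring
    · rw [BT.U, BT.c_right _ _ hx, ih, BT.U_n]; push_cast; ring

/-- recognising tree maps -/
theorem exists_tree (N : ℕ) : ∀ g : ℝ → ℝ, StrictMonoOn g (Icc 0 1) → g 0 = 0 → g 1 = N →
    (∀ j < N, ∃ i m : ℕ, i + 1 ≤ 2 ^ m ∧
      ∀ r : ℝ, (i : ℝ) ≤ 2 ^ m * r → 2 ^ m * r ≤ i + 1 → g r = j + (2 ^ m * r - i)) →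
    ∃ t : BT, t.n = N ∧ ∀ r ∈ Icc (0 : ℝ) 1, t.c r = g r := by
  induction N using Nat.strong_induction_on with
  | _ N ih =>
  intro g hg h0 h1 H
  have hend : ∀ (i m : ℕ), i + 1 ≤ 2 ^ m → ((i : ℝ) / 2 ^ m ∈ Icc (0 : ℝ) 1) ∧
      (((i : ℝ) + 1) / 2 ^ m ∈ Icc (0 : ℝ) 1) := by
    intro i m him
    have hp : (0 : ℝ) < 2 ^ m := by positivity
    have h2 : (i : ℝ) + 1 ≤ 2 ^ m := by exact_mod_cast him
    refine ⟨⟨by positivity, ?_⟩, ⟨by positivity, ?_⟩⟩ <;> rw [div_le_one hp] <;> linarith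
  have hval : ∀ (i m j : ℕ), (∀ r : ℝ, (i : ℝ) ≤ 2 ^ m * r → 2 ^ m * r ≤ i + 1 →
      g r = j + (2 ^ m * r - i)) → g ((i : ℝ) / 2 ^ m) = j ∧ g (((i : ℝ) + 1) / 2 ^ m) = j + 1 := by
    intro i m j h
    have hp : (0 : ℝ) < 2 ^ m := by positivity
    have e1 : (2 : ℝ) ^ m * (i / 2 ^ m) = i := by field_simp
    have e2 : (2 : ℝ) ^ m * ((i + 1) / 2 ^ m) = i + 1 := by field_simp
    constructor
    · rw [h _ (by rw [e1]) (by rw [e1]; linarith), e1]; ring
    · rw [h _ (by rw [e2]; linarith) (by rw [e2]), e2]; ring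
  rcases Nat.lt_or_ge N 2 with hN | hN
  · interval_cases N
    · exfalso
      have := hg (left_mem_Icc.2 zero_le_one) (right_mem_Icc.2 zero_le_one) one_pos
      rw [h0, h1] at this
      simp at this
    · obtain ⟨i, m, him, h⟩ := H 0 one_pos
      obtain ⟨v1, v2⟩ := hval i m 0 h
      obtain ⟨m1, m2⟩ := hend i m him
      have e1 := hg.injOn m1 (left_mem_Icc.2 zero_le_one) (by rw [v1, h0]; simp)
      have e2 := hg.injOn m2 (right_mem_Icc.2 zero_le_one) (by rw [v2, h1]; simp)
      have hp : (0 : ℝ) < 2 ^ m := by positivity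
      rw [div_eq_iff hp.ne'] at e1 e2
      rw [zero_mul] at e1
      rw [e1, zero_add, one_mul] at e2
      refine ⟨.leaf, rfl, fun r hr => ?_⟩
      rw [h r (by rw [e1, ← e2]; simpa using hr.1) (by rw [e1, ← e2]; simpa using hr.2), e1, ← e2]
      simp [BT.c]
  · have hhalf : (1 / 2 : ℝ) ∈ Icc (0 : ℝ) 1 := by constructor <;> norm_num
    have hz : (0 : ℝ) ∈ Icc (0 : ℝ) 1 := left_mem_Icc.2 zero_le_one
    have ho : (1 : ℝ) ∈ Icc (0 : ℝ) 1 := right_mem_Icc.2 zero_le_one
    have g1 : 0 < g (1 / 2) := by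
      have := hg hz hhalf (by norm_num); rwa [h0] at this
    have g2 : g (1 / 2) < N := by
      have := hg hhalf ho (by norm_num); rwa [h1] at this
    set j := ⌊g (1 / 2)⌋₊ with hj
    have j1 : (j : ℝ) ≤ g (1 / 2) := Nat.floor_le g1.le
    have j2 : g (1 / 2) < j + 1 := Nat.lt_floor_add_one _
    have hjN : j < N := by
      have : (j : ℝ) < N := by linarith
      exact_mod_cast this
    have hmid : g (1 / 2) = j := by
      obtain ⟨i, m, him, h⟩ := H j hjN
      obtain ⟨v1, v2⟩ := hval i m j h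
      obtain ⟨m1, m2⟩ := hend i m him
      have hp : (0 : ℝ) < 2 ^ m := by positivity
      have a1 : (i : ℝ) / 2 ^ m ≤ 1 / 2 := (hg.le_iff_le m1 hhalf).1 (by rw [v1]; exact j1)
      have a2 : 1 / 2 < ((i : ℝ) + 1) / 2 ^ m := (hg.lt_iff_lt hhalf m2).1 (by rw [v2]; exact j2)
      rw [div_le_iff₀ hp] at a1
      rw [lt_div_iff₀ hp] at a2
      rcases m with _ | m
      · have hi : i = 0 := by simpa using him
        subst hi
        simp only [pow_zero, div_one, Nat.cast_zero, zero_add] at v1 v2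
        rw [h0] at v1
        rw [h1, ← v1] at v2
        have : N = 1 := by
          have : (N : ℝ) = 1 := by linarith
          exact_mod_cast this
        omega
      · rw [pow_succ] at a1 a2
        have a1' : (i : ℝ) ≤ 2 ^ m := by linarith
        have a2' : (2 : ℝ) ^ m < i + 1 := by linarith
        have b1 : i ≤ 2 ^ m := by exact_mod_cast a1'
        have b2 : 2 ^ m < i + 1 := by exact_mod_cast a2'
        have b3 : i = 2 ^ m := by omega
        rw [b3] at v1
        have e : (((2 ^ m : ℕ) : ℝ)) / 2 ^ (m + 1) = 1 / 2 := by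
          push_cast; rw [pow_succ]; field_simp
        rw [e] at v1; exact v1
    have hj0 : 0 < j := by
      have : (0 : ℝ) < j := by rw [← hmid]; exact g1
      exact_mod_cast this
    -- left half
    obtain ⟨tl, htl, htl'⟩ := ih j hjN (fun r => g (r / 2))
      (fun a ha b hb hab => hg ⟨by linarith [ha.1], by linarith [ha.2]⟩
        ⟨by linarith [hb.1], by linarith [hb.2]⟩ (by linarith))
      (by simpa using h0) hmid (by
        intro j' hj'
        obtain ⟨i, m, him, h⟩ := H j' (by omega)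
        obtain ⟨v1, v2⟩ := hval i m j' h
        obtain ⟨m1, m2⟩ := hend i m him
        have hp : (0 : ℝ) < 2 ^ m := by positivity
        have a1 : ((i : ℝ) + 1) / 2 ^ m ≤ 1 / 2 := (hg.le_iff_le m2 hhalf).1 (by
          rw [v2, hmid]; exact_mod_cast hj')
        rw [div_le_iff₀ hp] at a1
        rcases m with _ | m
        · exfalso
          have : (0 : ℝ) ≤ i := by positivity
          norm_num at a1
          linarith
        · rw [pow_succ] at a1
          refine ⟨i, m, by
            have : (i : ℝ) + 1 ≤ 2 ^ m := by linarith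
            exact_mod_cast this, fun r hr1 hr2 => ?_⟩
          have e : (2 : ℝ) ^ (m + 1) * (r / 2) = 2 ^ m * r := by rw [pow_succ]; ring
          change g (r / 2) = _
          rw [h (r / 2) (by rw [e]; exact hr1) (by rw [e]; exact hr2), e])
    obtain ⟨tr, htr, htr'⟩ := ih (N - j) (by omega) (fun r => g ((r + 1) / 2) - j)
      (fun a ha b hb hab => by
        have := hg (a := (a + 1) / 2) (b := (b + 1) / 2) ⟨by linarith [ha.1], by linarith [ha.2]⟩
          ⟨by linarith [hb.1], by linarith [hb.2]⟩ (by linarith)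
        change g ((a + 1) / 2) - j < g ((b + 1) / 2) - j
        linarith)
      (by
        change g ((0 + 1) / 2) - j = 0
        rw [zero_add, hmid, sub_self])
      (by
        change g ((1 + 1) / 2) - j = _
        have : ((1 : ℝ) + 1) / 2 = 1 := by norm_num
        rw [this, h1, Nat.cast_sub hjN.le]) (by
        intro j' hj'
        obtain ⟨i, m, him, h⟩ := H (j + j') (by omega)
        obtain ⟨v1, v2⟩ := hval i m (j + j') h
        obtain ⟨m1, m2⟩ := hend i m him
        have hp : (0 : ℝ) < 2 ^ m := by positivity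
        have a1 : 1 / 2 ≤ (i : ℝ) / 2 ^ m := (hg.le_iff_le hhalf m1).1 (by
          rw [v1, hmid]; push_cast
          have : (0 : ℝ) ≤ j' := by positivity
          linarith)
        rw [le_div_iff₀ hp] at a1
        rcases m with _ | m
        · exfalso
          have hi : i = 0 := by simpa using him
          rw [hi] at a1
          norm_num at a1
        · rw [pow_succ] at a1
          have a2 : (2 : ℝ) ^ m ≤ i := by linarith
          have a3 : 2 ^ m ≤ i := by exact_mod_cast a2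
          refine ⟨i - 2 ^ m, m, by rw [pow_succ] at him; omega, fun r hr1 hr2 => ?_⟩
          rw [Nat.cast_sub a3] at hr1 hr2 ⊢
          push_cast at hr1 hr2 ⊢
          have e : (2 : ℝ) ^ (m + 1) * ((r + 1) / 2) = 2 ^ m * r + 2 ^ m := by
            rw [pow_succ]; ring
          rw [h ((r + 1) / 2) (by rw [e]; linarith) (by rw [e]; linarith), e]
          push_cast; ring)
    refine ⟨.node tl tr, by simp only [BT.n, htl, htr]; omega, fun r hr => ?_⟩
    rcases le_total r (1 / 2) with hr' | hr'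
    · rw [BT.c_left _ _ hr', htl' _ ⟨by linarith [hr.1], by linarith⟩]
      congr 1; ring
    · rw [BT.c_right _ _ hr', htr' _ ⟨by linarith [hr.1], by linarith [hr.2]⟩, htl]
      have : (2 * r - 1 + 1) / 2 = r := by ring
      change (j : ℝ) + (g ((2 * r - 1 + 1) / 2) - j) = g r
      rw [this]; ring

theorem eventually_int {c : ℝ} (hc : Dy c) (k : ℤ) :
    ∀ᶠ M : ℕ in atTop, ∃ m : ℕ, (m : ℤ) = M - k ∧ ∃ i : ℤ, c * 2 ^ m = i := by
  obtain ⟨n, p, hn⟩ := hc
  filter_upwards [eventually_ge_atTop (p + k.natAbs)] with M hM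
  have h1 : (0 : ℤ) ≤ M - k := by omega
  obtain ⟨m, hm⟩ := Int.eq_ofNat_of_zero_le h1
  refine ⟨m, hm.symm, ?_⟩
  have h2 : p ≤ m := by omega
  obtain ⟨q, rfl⟩ := Nat.exists_eq_add_of_le h2
  exact ⟨n * 2 ^ q, by rw [pow_add, ← mul_assoc, hn]; push_cast; rfl⟩

/-- uniform meshes -/
theorem exists_mesh {h : Equiv.Perm ℝ} (hh : h ∈ PP) (h0 : h 0 = 0) (h1 : h 1 = 1) :
    ∃ M : ℕ, ∀ j : ℕ, j < 2 ^ M → ∃ i m : ℕ, i + 1 ≤ 2 ^ m ∧
      ∀ r : ℝ, (j : ℝ) ≤ 2 ^ M * r → 2 ^ M * r ≤ j + 1 → h r * 2 ^ m = i + (2 ^ M * r - j) := by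
  have key : ∀ᶠ M : ℕ in atTop, ∀ j : ℤ,
      (∃ x ∈ Icc (0 : ℝ) 1, (j : ℝ) ≤ 2 ^ M * x ∧ 2 ^ M * x ≤ j + 1) →
      ∃ (i : ℤ) (m : ℕ), ∀ r : ℝ, (j : ℝ) ≤ 2 ^ M * r → 2 ^ M * r ≤ j + 1 →
        h r * 2 ^ m = i + (2 ^ M * r - j) := by
    apply isCompact_Icc.induction_on (p := fun S : Set ℝ => ∀ᶠ M : ℕ in atTop, ∀ j : ℤ,
      (∃ x ∈ S, (j : ℝ) ≤ 2 ^ M * x ∧ 2 ^ M * x ≤ j + 1) →
      ∃ (i : ℤ) (m : ℕ), ∀ r : ℝ, (j : ℝ) ≤ 2 ^ M * r → 2 ^ M * r ≤ j + 1 →
        h r * 2 ^ m = i + (2 ^ M * r - j))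
    · exact Eventually.of_forall fun M j ⟨x, hx, _⟩ => absurd hx (by simp)
    · intro s t hst ht
      filter_upwards [ht] with M hM j ⟨x, hx, hx'⟩
      exact hM j ⟨x, hst hx, hx'⟩
    · intro s t hs ht
      filter_upwards [hs, ht] with M hM hM' j ⟨x, hx, hx'⟩
      rcases hx with hx | hx
      · exact hM j ⟨x, hx, hx'⟩
      · exact hM' j ⟨x, hx, hx'⟩
    · intro x _
      obtain ⟨k, l, ⟨δ, hδ, hR⟩, ⟨δ', hδ', hL⟩, hkl⟩ := hh.2.slope x
      -- common radius
      set ρ := min δ δ' with hρ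
      have hρ0 : 0 < ρ := lt_min hδ hδ'
      have hρ1 : ρ ≤ δ := min_le_left _ _
      have hρ2 : ρ ≤ δ' := min_le_right _ _
      have hcR : Dy (h x - 2 ^ k * x) := by
        obtain ⟨s, hs, hs1, hs2⟩ := Dy.exists_between (show x < x + δ by linarith)
        have e := hR s hs1.le hs2.le
        have : h x - 2 ^ k * x = h s - 2 ^ k * s := by rw [e]; ring
        rw [this]
        exact ((hh.2.dy s).2 hs).sub ((Dy.zpow_mul_iff k).2 hs)
      have hcL : Dy (h x - 2 ^ l * x) := by
        obtain ⟨s, hs, hs1, hs2⟩ := Dy.exists_between (show x - δ' < x by linarith)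
        have e := hL s hs1.le hs2.le
        have : h x - 2 ^ l * x = h s - 2 ^ l * s := by rw [e]; ring
        rw [this]
        exact ((hh.2.dy s).2 hs).sub ((Dy.zpow_mul_iff l).2 hs)
      have fin : ∀ (k : ℤ) (M m : ℕ) (j i : ℤ), (m : ℤ) = M - k → (h x - 2 ^ k * x) * 2 ^ m = i →
          (∀ r : ℝ, (j : ℝ) ≤ 2 ^ M * r → 2 ^ M * r ≤ j + 1 → h r = h x + 2 ^ k * (r - x)) →
          ∃ (i : ℤ) (m : ℕ), ∀ r : ℝ, (j : ℝ) ≤ 2 ^ M * r → 2 ^ M * r ≤ j + 1 →
            h r * 2 ^ m = i + (2 ^ M * r - j) := by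
        intro k M m j i hm hi H
        refine ⟨i + j, m, fun r hr1 hr2 => ?_⟩
        rw [H r hr1 hr2]
        have e : (2 : ℝ) ^ k * 2 ^ m = 2 ^ M := by
          rw [← zpow_natCast (2 : ℝ) m, ← zpow_add₀ (by norm_num), hm]
          have : k + (M - k) = (M : ℤ) := by ring
          rw [this, zpow_natCast]
        have : (h x + 2 ^ k * (r - x)) * 2 ^ m = (h x - 2 ^ k * x) * 2 ^ m + (2 ^ k * 2 ^ m) * r := by
          ring
        rw [this, e, hi]; push_cast; ring
      refine ⟨Ioo (x - ρ / 2) (x + ρ / 2), mem_nhdsWithin_of_mem_nhds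
        (Ioo_mem_nhds (by linarith) (by linarith)), ?_⟩
      have hsmall : ∀ᶠ M : ℕ in atTop, 2 < ρ * 2 ^ M := by
        obtain ⟨M0, hM0⟩ := pow_unbounded_of_one_lt (2 / ρ) (by norm_num : (1 : ℝ) < 2)
        rw [div_lt_iff₀ hρ0] at hM0
        filter_upwards [eventually_ge_atTop M0] with M hM
        have : (2 : ℝ) ^ M0 ≤ 2 ^ M := pow_le_pow_right₀ (by norm_num) hM
        nlinarith
      have hside : ∀ᶠ M : ℕ in atTop, (k = l ∨ ∃ n : ℤ, x * 2 ^ M = n) := by
        by_cases hx : Dy x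
        · filter_upwards [eventually_int hx 0] with M ⟨m, hm, i, hi⟩
          right
          have : m = M := by simpa using hm
          subst this
          exact ⟨i, hi⟩
        · exact Eventually.of_forall fun _ => Or.inl (hkl hx)
      filter_upwards [hsmall, hside, eventually_int hcR k, eventually_int hcL l] with M hM hs
        ⟨m, hm, i, hi⟩ ⟨m', hm', i', hi'⟩ j ⟨y, hy, hy1, hy2⟩
      have hp : (0 : ℝ) < 2 ^ M := by positivity
      -- every point of the mesh interval is close to x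
      have hclose : ∀ r : ℝ, (j : ℝ) ≤ 2 ^ M * r → 2 ^ M * r ≤ j + 1 → x - ρ ≤ r ∧ r ≤ x + ρ := by
        intro r hr1 hr2
        have a1 : 2 ^ M * (r - y) ≤ 1 := by rw [mul_sub]; linarith
        have a2 : 2 ^ M * (y - r) ≤ 1 := by rw [mul_sub]; linarith
        have b1 : r - y < ρ / 2 := by
          by_contra hcon; rw [not_lt] at hcon
          nlinarith
        have b2 : y - r < ρ / 2 := by
          by_contra hcon; rw [not_lt] at hcon
          nlinarith
        constructor <;> linarith [hy.1, hy.2]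
      rcases hs with rfl | ⟨n, hn⟩
      · apply fin k M m j i hm hi
        intro r hr1 hr2
        obtain ⟨c1, c2⟩ := hclose r hr1 hr2
        rcases le_total x r with hxr | hxr
        · exact hR r hxr (by linarith)
        · exact hL r (by linarith) hxr
      · rcases lt_or_ge j n with hjn | hjn
        · apply fin l M m' j i' hm' hi'
          intro r hr1 hr2
          obtain ⟨c1, c2⟩ := hclose r hr1 hr2
          have : (j : ℝ) + 1 ≤ n := by exact_mod_cast hjn
          have : 2 ^ M * r ≤ 2 ^ M * x := by rw [mul_comm _ x, hn]; linarith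
          exact hL r (by linarith) (le_of_mul_le_mul_left this hp)
        · apply fin k M m j i hm hi
          intro r hr1 hr2
          obtain ⟨c1, c2⟩ := hclose r hr1 hr2
          have : (n : ℝ) ≤ j := by exact_mod_cast hjn
          have : 2 ^ M * x ≤ 2 ^ M * r := by rw [mul_comm _ x, hn]; linarith
          exact hR r (le_of_mul_le_mul_left this hp) (by linarith)
  obtain ⟨M, hM⟩ := key.exists
  refine ⟨M, fun j hj => ?_⟩
  have hp : (0 : ℝ) < 2 ^ M := by positivity
  have hj1 : (j : ℝ) + 1 ≤ 2 ^ M := by exact_mod_cast hj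
  have e1 : (2 : ℝ) ^ M * (j / 2 ^ M) = j := by field_simp
  have e2 : (2 : ℝ) ^ M * ((j + 1) / 2 ^ M) = j + 1 := by field_simp
  obtain ⟨i, m, H⟩ := hM (j : ℤ) ⟨(j : ℝ) / 2 ^ M, ⟨by positivity, by rw [div_le_one hp]; linarith⟩,
    by rw [e1]; simp, by rw [e1]; simp⟩
  have hpm : (0 : ℝ) < 2 ^ m := by positivity
  have v1 := H ((j : ℝ) / 2 ^ M) (by rw [e1]; simp) (by rw [e1]; simp)
  have v2 := H (((j : ℝ) + 1) / 2 ^ M) (by rw [e2]; simp) (by rw [e2]; simp)
  rw [e1] at v1
  rw [e2] at v2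
  have w1 : 0 ≤ h ((j : ℝ) / 2 ^ M) := by
    rw [← h0]; exact hh.1.monotone (by positivity)
  have w2 : h (((j : ℝ) + 1) / 2 ^ M) ≤ 1 := by
    rw [← h1]; exact hh.1.monotone (by rw [div_le_one hp, h1]; exact hj1)
  have i0 : (0 : ℝ) ≤ i := by
    have : 0 ≤ h ((j : ℝ) / 2 ^ M) * 2 ^ m := by positivity
    rw [v1] at this
    push_cast at this
    linarith
  have i1 : (i : ℝ) + 1 ≤ 2 ^ m := by
    have : h (((j : ℝ) + 1) / 2 ^ M) * 2 ^ m ≤ 1 * 2 ^ m := by gcongr
    rw [v2] at this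
    push_cast at this
    linarith
  have i0' : 0 ≤ i := by exact_mod_cast i0
  obtain ⟨i', rfl⟩ := Int.eq_ofNat_of_zero_le i0'
  refine ⟨i', m, by exact_mod_cast i1, fun r hr1 hr2 => ?_⟩
  have := H r (by simpa using hr1) (by simpa using hr2)
  rw [this]; push_cast; ring

end Pool.Agent.MP_317377_al
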